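import Pool.Agent.Helper40.Menger

set_option autoImplicit false
set_option linter.unusedSectionVars false

namespace Pool.Agent.Helper40

open Finset

section CutOrder

variable {V : Type} [Fintype V] [DecidableEq V]

lemma cutSize_compl (G : SimpleGraph V) (X : Finset V) : cutSize G Xᶜ = cutSize G X := by
  classical
  unfold cutSize
  refine Finset.card_bij (fun p _ => (p.2, p.1)) ?_ ?_ ?_
  · rintro ⟨a, b⟩ h
    simp only [mem_filter, mem_univ, true_and, mem_compl, not_not] at h ⊢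
    exact ⟨h.2.1, h.1, h.2.2.symm⟩
  · rintro ⟨a, b⟩ _ ⟨c, d⟩ _ h
    simp only [Prod.mk.injEq] at h ⊢
    exact ⟨h.2, h.1⟩
  · rintro ⟨a, b⟩ h
    simp only [mem_filter, mem_univ, true_and] at h
    refine ⟨(b, a), ?_, rfl⟩
    simp only [mem_filter, mem_univ, true_and, mem_compl, not_not]
    exact ⟨h.2.1, h.1, h.2.2.symm⟩

lemma cutSize_submod (G : SimpleGraph V) (X Y : Finset V) :
    cutSize G (X ∩ Y) + cutSize G (X ∪ Y) ≤ cutSize G X + cutSize G Y := by
  classical
  unfold cutSize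
  simp only [Finset.card_filter]
  rw [← Finset.sum_add_distrib, ← Finset.sum_add_distrib]
  apply Finset.sum_le_sum
  rintro ⟨a, b⟩ _
  simp only [mem_inter, mem_union]
  by_cases h1 : a ∈ X <;> by_cases h2 : a ∈ Y <;> by_cases h3 : b ∈ X <;> by_cases h4 : b ∈ Y <;>
    by_cases h5 : G.Adj a b <;> simp [h1, h2, h3, h4, h5]

lemma exists_order_aux (d : Finset V → ℕ) (hsymm : ∀ X, d Xᶜ = d X)
    (hsub : ∀ X Y, d (X ∩ Y) + d (X ∪ Y) ≤ d X + d Y) (k : ℕ) (z : V) (n : ℕ) :
    ∀ (R : Finset V) (F : Finset V → Prop), R.card = n →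
    (∀ X, F X → F Xᶜ) → (∀ X Y, F X → F Y → F (X ∩ Y)) →
    (∀ u ∈ R, ∀ v ∈ R, u ≠ v → ∃ Y, F Y ∧ u ∈ Y ∧ v ∉ Y ∧ d Y ≤ k) →
    ∃ L : List V, L.Nodup ∧ (∀ x, x ∈ L ↔ x ∈ R) ∧
      ∀ L1 c L2, L = L1 ++ c :: L2 → L1 ≠ [] →
        ∃ D, F D ∧ c ∈ D ∧ (∀ x ∈ L1, x ∉ D) ∧ z ∉ D ∧ d D ≤ k := by
  induction n using Nat.strong_induction_on with
  | _ n ih =>
  intro R F hR hFc hFi hsep
  by_cases hcard : R.card ≤ 1
  · -- at most one terminal
    rcases Nat.le_one_iff_eq_zero_or_eq_one.mp hcard with h0 | h1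
    · rw [Finset.card_eq_zero] at h0
      subst h0
      exact ⟨[], List.nodup_nil, by simp, by intro L1 c L2 h; simp at h⟩
    · rw [Finset.card_eq_one] at h1
      obtain ⟨a, rfl⟩ := h1
      refine ⟨[a], by simp, by simp, ?_⟩
      intro L1 c L2 h hne
      exfalso
      cases L1 with
      | nil => exact hne rfl
      | cons b t =>
        simp at h
  · push Not at hcard
    -- separating sets
    have hex : ∃ X, F X ∧ (∃ s ∈ R, s ∈ X) ∧ (∃ t ∈ R, t ∉ X) := by
      obtain ⟨u, hu, v, hv, huv⟩ := Finset.one_lt_card.mp hcard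
      obtain ⟨Y, hY, h1, h2, _⟩ := hsep u hu v hv huv
      exact ⟨Y, hY, ⟨u, hu, h1⟩, ⟨v, hv, h2⟩⟩
    classical
    let S : Finset (Finset V) := univ.filter (fun X => F X ∧ (∃ s ∈ R, s ∈ X) ∧ (∃ t ∈ R, t ∉ X))
    have hS : S.Nonempty := by
      obtain ⟨X, hX⟩ := hex
      exact ⟨X, by simp only [S, mem_filter, mem_univ, true_and]; exact hX⟩
    obtain ⟨X0, hX0S, hX0min⟩ := Finset.exists_min_image S d hS
    -- WLOG z ∉ X
    have hX : ∃ X, F X ∧ (∃ s ∈ R, s ∈ X) ∧ (∃ t ∈ R, t ∉ X) ∧ z ∉ X ∧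
        (∀ Y, F Y → (∃ s ∈ R, s ∈ Y) → (∃ t ∈ R, t ∉ Y) → d X ≤ d Y) := by
      simp only [S, mem_filter, mem_univ, true_and] at hX0S hX0min
      by_cases hz : z ∈ X0
      · refine ⟨X0ᶜ, hFc _ hX0S.1, ?_, ?_, by simpa using hz, ?_⟩
        · obtain ⟨t, ht, ht'⟩ := hX0S.2.2
          exact ⟨t, ht, by simpa using ht'⟩
        · obtain ⟨t, ht, ht'⟩ := hX0S.2.1
          exact ⟨t, ht, by simpa using ht'⟩
        · intro Y h1 h2 h3
          rw [hsymm]
          exact hX0min Y ⟨h1, h2, h3⟩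
      · exact ⟨X0, hX0S.1, hX0S.2.1, hX0S.2.2, hz, fun Y h1 h2 h3 => hX0min Y ⟨h1, h2, h3⟩⟩
    obtain ⟨X, hFX, ⟨s, hsR, hsX⟩, ⟨t, htR, htX⟩, hzX, hmin⟩ := hX
    have hdX : d X ≤ k := by
      obtain ⟨Y, hY, h1, h2, h3⟩ := hsep s hsR t htR (fun h => htX (h ▸ hsX))
      exact (hmin Y hY ⟨s, hsR, h1⟩ ⟨t, htR, h2⟩).trans h3
    have hFu : ∀ A B, F A → F B → F (A ∪ B) := by
      intro A B hA hB
      have := hFc _ (hFi _ _ (hFc _ hA) (hFc _ hB))
      rwa [← Finset.compl_union, compl_compl] at this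
    -- uncrossing
    have hunc : ∀ Z, F Z → (∃ t ∈ R, t ∉ Z) → (∀ Y, F Y → (∃ s ∈ R, s ∈ Y) → (∃ t ∈ R, t ∉ Y) → d Z ≤ d Y) →
        ∀ u ∈ R ∩ Z, ∀ v ∈ R ∩ Z, u ≠ v →
        ∃ Y, (F Y ∧ (Y ⊆ Z ∨ Zᶜ ⊆ Y)) ∧ u ∈ Y ∧ v ∉ Y ∧ d Y ≤ k := by
      intro Z hZ ⟨t, htR, htZ⟩ hminZ u hu v hv huv
      rw [mem_inter] at hu hv
      obtain ⟨Y, hY, h1, h2, h3⟩ := hsep u hu.1 v hv.1 huv
      by_cases htY : t ∈ Y
      · -- use complement
        have h4 := hsub Z Yᶜ
        have h5 : d Z ≤ d (Z ∪ Yᶜ) := by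
          apply hminZ _ (hFu _ _ hZ (hFc _ hY)) ⟨u, hu.1, by simp [hu.2]⟩ ⟨t, htR, by simp [htZ, htY]⟩
        have h6 := hsymm Y
        refine ⟨(Z ∩ Yᶜ)ᶜ, ⟨hFc _ (hFi _ _ hZ (hFc _ hY)), Or.inr ?_⟩, ?_, ?_, ?_⟩
        · intro x hx
          simp only [mem_compl, mem_inter, not_and, not_not] at hx ⊢
          intro h; exact absurd h hx
        · simp [h1]
        · simp [h2, hv.2]
        · rw [hsymm]; omega
      · have h4 := hsub Z Y
        have h5 : d Z ≤ d (Z ∪ Y) := by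
          apply hminZ _ (hFu _ _ hZ hY) ⟨u, hu.1, by simp [hu.2]⟩ ⟨t, htR, by simp [htZ, htY]⟩
        refine ⟨Z ∩ Y, ⟨hFi _ _ hZ hY, Or.inl Finset.inter_subset_left⟩, ?_, ?_, ?_⟩
        · simp [h1, hu.2]
        · simp [h2]
        · omega
    have hclosed : ∀ Z, F Z → (∀ A, (F A ∧ (A ⊆ Z ∨ Zᶜ ⊆ A)) → (F Aᶜ ∧ (Aᶜ ⊆ Z ∨ Zᶜ ⊆ Aᶜ))) ∧
        (∀ A B, (F A ∧ (A ⊆ Z ∨ Zᶜ ⊆ A)) → (F B ∧ (B ⊆ Z ∨ Zᶜ ⊆ B)) →
          (F (A ∩ B) ∧ ((A ∩ B) ⊆ Z ∨ Zᶜ ⊆ (A ∩ B)))) := by
      intro Z hZ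
      refine ⟨?_, ?_⟩
      · rintro A ⟨hA, h | h⟩
        · refine ⟨hFc _ hA, Or.inr ?_⟩
          exact Finset.compl_subset_compl.mpr h
        · refine ⟨hFc _ hA, Or.inl ?_⟩
          rw [← Finset.compl_subset_compl, compl_compl]
          exact h
      · rintro A B ⟨hA, hA'⟩ ⟨hB, hB'⟩
        refine ⟨hFi _ _ hA hB, ?_⟩
        rcases hA' with h | h
        · exact Or.inl (Finset.inter_subset_left.trans h)
        · rcases hB' with h' | h'
          · exact Or.inl (Finset.inter_subset_right.trans h')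
          · exact Or.inr (Finset.subset_inter h h')
    -- apply induction to the inner part
    have hcard1 : (R ∩ X).card < n := by
      rw [← hR]
      apply Finset.card_lt_card
      refine ⟨Finset.inter_subset_left, fun h => htX (mem_inter.mp (h htR)).2⟩
    have hcard2 : (R ∩ Xᶜ).card < n := by
      rw [← hR]
      apply Finset.card_lt_card
      refine ⟨Finset.inter_subset_left, fun h => ?_⟩
      have := (mem_inter.mp (h hsR)).2
      simp [hsX] at this
    obtain ⟨L1, hn1, hm1, hL1⟩ := ih _ hcard1 (R ∩ X) (fun Y => F Y ∧ (Y ⊆ X ∨ Xᶜ ⊆ Y)) rfl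
      (hclosed X hFX).1 (hclosed X hFX).2 (hunc X hFX ⟨t, htR, htX⟩ hmin)
    obtain ⟨L2, hn2, hm2, hL2⟩ := ih _ hcard2 (R ∩ Xᶜ) (fun Y => F Y ∧ (Y ⊆ Xᶜ ∨ Xᶜᶜ ⊆ Y)) rfl
      (hclosed Xᶜ (hFc _ hFX)).1 (hclosed Xᶜ (hFc _ hFX)).2
      (hunc Xᶜ (hFc _ hFX) ⟨s, hsR, by simp [hsX]⟩ (by intro Y h1 h2 h3; rw [hsymm]; exact hmin Y h1 h2 h3))
    refine ⟨L2 ++ L1, ?_, ?_, ?_⟩
    · rw [List.nodup_append]
      refine ⟨hn2, hn1, ?_⟩
      intro a ha b hb hab
      subst hab
      rw [hm2] at ha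
      rw [hm1] at hb
      simp only [mem_inter, mem_compl] at ha hb
      exact ha.2 hb.2
    · intro x
      rw [List.mem_append, hm1, hm2]
      simp only [mem_inter, mem_compl]
      tauto
    · intro A c B hAB hA
      rw [List.append_eq_append_iff] at hAB
      rcases hAB with ⟨C, h1, h2⟩ | ⟨C, h1, h2⟩
      · -- A = L2 ++ C, L1 = C ++ c :: B
        by_cases hC : C = []
        · subst hC
          refine ⟨X, hFX, ?_, ?_, hzX, hdX⟩
          · have : c ∈ L1 := by rw [h2]; simp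
            rw [hm1] at this
            exact (mem_inter.mp this).2
          · intro x hx
            rw [h1, List.append_nil, hm2] at hx
            simpa using (mem_inter.mp hx).2
        · obtain ⟨D, ⟨hD1, hD2⟩, hD3, hD4, hD5, hD6⟩ := hL1 C c B h2 hC
          have hDX : D ⊆ X := by
            rcases hD2 with h | h
            · exact h
            · exact absurd (h (by simpa using hzX)) hD5
          refine ⟨D, hD1, hD3, ?_, hD5, hD6⟩
          intro x hx
          rw [h1, List.mem_append] at hx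
          rcases hx with hx | hx
          · rw [hm2] at hx
            intro hxD
            have := hDX hxD
            simp only [mem_inter, mem_compl] at hx
            exact hx.2 this
          · exact hD4 x hx
      · -- L2 = A ++ C, c :: B = C ++ L1
        cases C with
        | nil =>
          simp only [List.nil_append] at h2
          -- c is the first of L1
          refine ⟨X, hFX, ?_, ?_, hzX, hdX⟩
          · have : c ∈ L1 := by rw [← h2]; simp
            rw [hm1] at this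
            exact (mem_inter.mp this).2
          · intro x hx
            have hx' : x ∈ L2 := by rw [h1]; simp [hx]
            rw [hm2] at hx'
            simpa using (mem_inter.mp hx').2
        | cons c' C' =>
          simp only [List.cons_append, List.cons.injEq] at h2
          obtain ⟨rfl, _⟩ := h2
          obtain ⟨D, ⟨hD1, hD2⟩, hD3, hD4, hD5, hD6⟩ := hL2 A c C' h1 hA
          exact ⟨D, hD1, hD3, hD4, hD5, hD6⟩

/-- A list of vertices (top to bottom) such that each vertex `c` lies in a set `D` contained in the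
part of the list from `c` on and with at most `k` edges leaving `D`. -/
def GoodList (G : SimpleGraph V) (k : ℕ) : List V → Prop
  | [] => True
  | c :: l => GoodList G k l ∧ c ∉ l ∧
      ∃ D : Finset V, c ∈ D ∧ (∀ x ∈ D, x = c ∨ x ∈ l) ∧ cutSize G D ≤ k

theorem exists_goodList (G : SimpleGraph V) (k : ℕ)
    (h : ∀ u v : V, u ≠ v → ∃ X : Finset V, u ∈ X ∧ v ∉ X ∧ cutSize G X ≤ k) :
    ∃ L : List V, (∀ x, x ∈ L) ∧ GoodList G k L := by
  classical
  by_cases hV : Nonempty V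
  · obtain ⟨z⟩ := hV
    obtain ⟨L, h1, h2, h3⟩ := exists_order_aux (cutSize G) (cutSize_compl G) (cutSize_submod G) k z
      _ (univ : Finset V) (fun _ => True) rfl (fun _ _ => trivial) (fun _ _ _ _ => trivial)
      (by
        intro u _ v _ huv
        obtain ⟨X, h1, h2, h3⟩ := h u v huv
        exact ⟨X, trivial, h1, h2, h3⟩)
    refine ⟨L, fun x => (h2 x).mpr (mem_univ x), ?_⟩
    have key : ∀ (B A : List V), L = A ++ B → GoodList G k B := by
      intro B
      induction B with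
      | nil => intro A _; trivial
      | cons c B ih =>
        intro A hA
        refine ⟨ih (A ++ [c]) (by rw [hA]; simp), ?_, ?_⟩
        · rw [hA] at h1
          have := (List.nodup_append.mp h1).2.1
          exact (List.nodup_cons.mp this).1
        · by_cases hA' : A = []
          · subst hA'
            refine ⟨univ, mem_univ _, ?_, ?_⟩
            · intro x _
              have := (h2 x).mpr (mem_univ x)
              rw [hA] at this
              simpa using this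
            · unfold cutSize
              simp
          · obtain ⟨D, _, hD1, hD2, _, hD3⟩ := h3 A c B hA hA'
            refine ⟨D, hD1, ?_, hD3⟩
            intro x hx
            have h4 := (h2 x).mpr (mem_univ x)
            rw [hA, List.mem_append] at h4
            rcases h4 with h4 | h4
            · exact absurd hx (hD2 x h4)
            · simpa using h4
    exact key L [] rfl
  · refine ⟨[], ?_, trivial⟩
    intro x
    exact absurd ⟨x⟩ hV

end CutOrder

end Pool.Agent.Helper40
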