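import Pool.Agent.Helper40.ZeroFree

set_option autoImplicit false
set_option linter.unusedSectionVars false
set_option linter.unusedDecidableInType false
set_option linter.unusedFintypeInType false

namespace Pool.Agent.Helper40

open Finset MonoidAlgebra

section Eval

variable {V : Type} [Fintype V] {K : Type} [CommRing K]

lemma ev_T (n : ℕ) (c : V) (τ : V → Fin n) (f : MonoidAlgebra K (GM V)) [DecidableEq V] :
    ev τ (T (n : K) c f) = ∑ b : Fin n, ev (Function.update τ c b) f := by
  classical
  induction f using induct with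
  | zero => simp
  | add f1 f2 h1 h2 =>
    rw [map_add, map_add, h1, h2, ← Finset.sum_add_distrib]
    simp
  | single H a =>
    rw [T_single]
    have hrw : ∀ b : Fin n, ev (Function.update τ c b) (single H a : MonoidAlgebra K (GM V)) =
        if (∀ i j, H.Adj i j → Function.update τ c b i = Function.update τ c b j) then a else 0 := by
      intro b
      rw [ev_single]
    rw [Finset.sum_congr rfl (fun b _ => hrw b)]
    split_ifs with h
    · rw [ev_single]
      obtain ⟨j0, hj0⟩ := h
      have hj0c : j0 ≠ c := fun h => GM.ne hj0 h.symm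
      rw [Finset.sum_eq_single (τ j0)]
      · congr 1
        apply propext
        constructor
        · intro h1 i j hij
          by_cases hi : i = c
          · subst hi
            have hj : j ≠ i := fun h => GM.ne hij h.symm
            rw [Function.update_self, Function.update_of_ne hj]
            by_cases hjj : j0 = j
            · rw [hjj]
            · apply h1
              rw [contr_adj]
              exact ⟨hj0c, hj, hjj, Or.inr ⟨GM.symm hj0, GM.symm hij⟩⟩
          · by_cases hj : j = c
            · subst hj
              rw [Function.update_self, Function.update_of_ne hi]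
              by_cases hjj : i = j0
              · rw [hjj]
              · apply h1
                rw [contr_adj]
                exact ⟨hi, hj0c, hjj, Or.inr ⟨hij, GM.symm hj0⟩⟩
            · rw [Function.update_of_ne hi, Function.update_of_ne hj]
              apply h1
              rw [contr_adj]
              exact ⟨hi, hj, GM.ne hij, Or.inl hij⟩
        · intro h1 i j hij
          rw [contr_adj] at hij
          obtain ⟨hi, hj, hne, h2⟩ := hij
          rcases h2 with h2 | ⟨h2, h3⟩
          · have := h1 i j h2
            rwa [Function.update_of_ne hi, Function.update_of_ne hj] at this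
          · have h4 := h1 i c h2
            have h5 := h1 j c h3
            rw [Function.update_of_ne hi, Function.update_self] at h4
            rw [Function.update_of_ne hj, Function.update_self] at h5
            rw [h4, h5]
      · intro b _ hb
        rw [if_neg]
        intro h1
        apply hb
        have := h1 c j0 hj0
        rwa [Function.update_self, Function.update_of_ne hj0c] at this
      · intro h
        exact absurd (Finset.mem_univ _) h
    · rw [ev_single]
      have h1 : ∀ b : Fin n, (∀ i j, H.Adj i j → Function.update τ c b i = Function.update τ c b j) ↔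
          (∀ i j, H.Adj i j → τ i = τ j) := by
        intro b
        constructor
        · intro h2 i j hij
          have hi : i ≠ c := by rintro rfl; exact h ⟨j, hij⟩
          have hj : j ≠ c := by rintro rfl; exact h ⟨i, GM.symm hij⟩
          have := h2 i j hij
          rwa [Function.update_of_ne hi, Function.update_of_ne hj] at this
        · intro h2 i j hij
          have hi : i ≠ c := by rintro rfl; exact h ⟨j, hij⟩
          have hj : j ≠ c := by rintro rfl; exact h ⟨i, GM.symm hij⟩
          rw [Function.update_of_ne hi, Function.update_of_ne hj]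
          exact h2 i j hij
      simp only [h1, Finset.sum_const, Finset.card_univ, Fintype.card_fin, nsmul_eq_mul]
      split_ifs <;> simp

/-- The colourings of all vertices that agree with `τ` off the list and are proper at the list. -/
def Good (G : SimpleGraph V) (n : ℕ) (τ : V → Fin n) (l : List V) (σ : V → Fin n) : Prop :=
  (∀ x, x ∉ l → σ x = τ x) ∧ ∀ x ∈ l, ∀ y, G.Adj x y → σ x ≠ σ y

lemma ev_dl {α : Type} (τ : V → α) (c w : V) (h : c ≠ w) [Decidable (τ c = τ w)] :
    ev τ (dl c w : MonoidAlgebra K (GM V)) = if τ c = τ w then 1 else 0 := by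
  classical
  unfold dl
  rw [ev_single]
  congr 1
  apply propext
  constructor
  · intro h1
    apply h1
    rw [edgeG_adj]
    exact ⟨Or.inl ⟨rfl, rfl⟩, h⟩
  · intro h1 i j hij
    rw [edgeG_adj] at hij
    rcases hij.1 with ⟨rfl, rfl⟩ | ⟨rfl, rfl⟩
    · exact h1
    · exact h1.symm

lemma ev_Zf (n : ℕ) (G : SimpleGraph V) (l : List V) (hl : l.Nodup) [DecidableEq V] :
    ∀ τ : V → Fin n, ∀ [DecidablePred (Good G n τ l)],
      ev τ (Zf (n : K) G l) = ∑ σ : V → Fin n, if Good G n τ l σ then (1 : K) else 0 := by
  classical
  induction l with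
  | nil =>
    intro τ _
    show ev τ (1 : MonoidAlgebra K (GM V)) = _
    rw [map_one, Finset.sum_eq_single τ]
    · rw [if_pos]
      exact ⟨fun _ _ => rfl, fun x hx => absurd hx List.not_mem_nil⟩
    · intro σ _ hσ
      rw [if_neg]
      rintro ⟨h1, _⟩
      exact hσ (funext (fun x => h1 x List.not_mem_nil))
    · intro h
      exact absurd (Finset.mem_univ _) h
  | cons c l ih =>
    have hnd := List.nodup_cons.mp hl
    intro τ _
    rw [Zf_cons, ev_T]
    have h1 : ∀ b : Fin n, ev (Function.update τ c b)
        (Zf (n : K) G l * ∏ w ∈ outN G c l, (1 - dl c w)) =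
        ∑ σ : V → Fin n, if (Good G n (Function.update τ c b) l σ ∧
          ∀ w ∈ outN G c l, b ≠ τ w) then (1 : K) else 0 := by
      intro b
      rw [map_mul, ih hnd.2, map_prod, Finset.sum_mul]
      have h2 : ∏ w ∈ outN G c l, ev (Function.update τ c b) (1 - dl c w : MonoidAlgebra K (GM V))
          = if (∀ w ∈ outN G c l, b ≠ τ w) then 1 else 0 := by
        have h3 : ∀ w ∈ outN G c l, ev (Function.update τ c b) (1 - dl c w : MonoidAlgebra K (GM V))
            = if b ≠ τ w then 1 else 0 := by
          intro w hw
          rw [mem_outN] at hw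
          rw [map_sub, map_one, ev_dl _ _ _ hw.1.symm, Function.update_self,
            Function.update_of_ne hw.1]
          by_cases h4 : b = τ w <;> simp [h4]
        rw [Finset.prod_congr rfl h3]
        by_cases h4 : ∀ w ∈ outN G c l, b ≠ τ w
        · rw [if_pos h4]
          apply Finset.prod_eq_one
          intro w hw
          rw [if_pos (h4 w hw)]
        · rw [if_neg h4]
          push Not at h4
          obtain ⟨w, hw, hbw⟩ := h4
          apply Finset.prod_eq_zero hw
          rw [if_neg (by simpa using hbw)]
      rw [h2]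
      refine Finset.sum_congr rfl (fun σ _ => ?_)
      by_cases h5 : Good G n (Function.update τ c b) l σ <;>
        by_cases h6 : ∀ w ∈ outN G c l, b ≠ τ w <;> simp [h5, h6]
    rw [Finset.sum_congr rfl (fun b _ => h1 b), Finset.sum_comm]
    refine Finset.sum_congr rfl (fun σ _ => ?_)
    rw [Finset.sum_eq_single (σ c)]
    · congr 1
      apply propext
      constructor
      · rintro ⟨⟨h2, h3⟩, h4⟩
        refine ⟨?_, ?_⟩
        · intro x hx
          rw [List.mem_cons, not_or] at hx
          rw [h2 x hx.2, Function.update_of_ne hx.1]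
        · intro x hx y hxy
          rcases List.mem_cons.mp hx with rfl | hx
          · by_cases hy : y ∈ l
            · exact (h3 y hy x hxy.symm).symm
            · have h5 : y ∈ outN G x l := (mem_outN _ _ _ _).mpr ⟨hxy.ne.symm, hy, hxy⟩
              have h6 := h4 y h5
              rwa [h2 y hy, Function.update_of_ne hxy.ne.symm]
          · exact h3 x hx y hxy
      · rintro ⟨h2, h3⟩
        refine ⟨⟨?_, ?_⟩, ?_⟩
        · intro x hx
          by_cases hxc : x = c
          · subst hxc; rw [Function.update_self]
          · rw [Function.update_of_ne hxc]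
            apply h2
            rw [List.mem_cons, not_or]
            exact ⟨hxc, hx⟩
        · intro x hx y hxy
          exact h3 x (List.mem_cons_of_mem _ hx) y hxy
        · intro w hw
          rw [mem_outN] at hw
          have h4 := h3 c List.mem_cons_self w hw.2.2
          have h5 : σ w = τ w := by
            apply h2
            rw [List.mem_cons, not_or]
            exact ⟨hw.1, hw.2.1⟩
          rwa [h5] at h4
    · intro b _ hb
      rw [if_neg]
      rintro ⟨⟨h2, _⟩, _⟩
      apply hb
      have := h2 c hnd.1
      rw [Function.update_self] at this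
      exact this.symm
    · intro h
      exact absurd (Finset.mem_univ _) h

/-- Augmentation. -/
noncomputable def aug : MonoidAlgebra K (GM V) →+* K := ev (fun _ : V => ())

lemma ev_const {α : Type} (b : α) (f : MonoidAlgebra K (GM V)) : ev (fun _ : V => b) f = aug f := by
  classical
  unfold aug
  induction f using induct with
  | zero => simp
  | add f1 f2 h1 h2 => rw [map_add, map_add, h1, h2]
  | single H a => simp [ev_single]

lemma aug_single (H : GM V) (a : K) : aug (single H a : MonoidAlgebra K (GM V)) = a := by
  classical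
  unfold aug
  simp [ev_single]

variable {K' : Type} [CommRing K']

lemma map_T (φ : K →+* K') (q : K) (c : V) (f : MonoidAlgebra K (GM V)) :
    MonoidAlgebra.mapRingHom (GM V) φ (T q c f) = T (φ q) c (MonoidAlgebra.mapRingHom (GM V) φ f) := by
  classical
  induction f using induct with
  | zero => simp
  | add f1 f2 h1 h2 => rw [map_add, map_add, h1, h2, map_add, map_add]
  | single H a =>
    rw [T_single, MonoidAlgebra.mapRingHom_single, T_single]
    split_ifs
    · rw [MonoidAlgebra.mapRingHom_single]
    · rw [MonoidAlgebra.mapRingHom_single, map_mul]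

lemma map_Zf (φ : K →+* K') (q : K) (G : SimpleGraph V) (l : List V) :
    MonoidAlgebra.mapRingHom (GM V) φ (Zf q G l) = Zf (φ q) G l := by
  classical
  induction l with
  | nil => exact map_one _
  | cons c l ih =>
    rw [Zf_cons, Zf_cons, map_T, map_mul, ih, map_prod]
    congr 2
    refine Finset.prod_congr rfl (fun w _ => ?_)
    rw [map_sub, map_one]
    unfold dl
    rw [MonoidAlgebra.mapRingHom_single, map_one]

lemma map_aug (φ : K →+* K') (f : MonoidAlgebra K (GM V)) :
    φ (aug f) = aug (MonoidAlgebra.mapRingHom (GM V) φ f) := by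
  classical
  induction f using induct with
  | zero => simp
  | add f1 f2 h1 h2 => rw [map_add, map_add, h1, h2, map_add, map_add]
  | single H a => rw [aug_single, MonoidAlgebra.mapRingHom_single, aug_single]

lemma aug_Zf_nat (n : ℕ) (hn : 0 < n) (G : SimpleGraph V) (L : List V) (hL : L.Nodup)
    (hLall : ∀ x, x ∈ L) :
    aug (Zf (n : ℂ) G L) = ((Nat.card (G.Coloring (Fin n)) : ℕ) : ℂ) := by
  classical
  rw [← ev_const (⟨0, hn⟩ : Fin n), ev_Zf n G L hL, Finset.sum_ite, Finset.sum_const_zero, add_zero,
    Finset.sum_const, nsmul_eq_mul, mul_one]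
  congr 1
  rw [← Fintype.card_subtype, ← Nat.card_eq_fintype_card]
  refine Nat.card_congr ?_
  refine
    { toFun := fun σ => SimpleGraph.Coloring.mk σ.1 (fun {x y} hxy => σ.2.2 x (hLall x) y hxy)
      invFun := fun C => ⟨fun x => C x, ⟨fun x hx => absurd (hLall x) hx,
        fun x _ y hxy => C.valid hxy⟩⟩
      left_inv := ?_
      right_inv := ?_ }
  · intro σ; rfl
  · intro C; rfl

/-- The value at `z` of the chromatic polynomial is given by `Zf`. -/
lemma eval_eq_aug (G : SimpleGraph V) (L : List V) (hL : L.Nodup) (hLall : ∀ x, x ∈ L)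
    (P : Polynomial ℂ)
    (hP : ∀ n : ℕ, P.eval (n : ℂ) = ((Nat.card (G.Coloring (Fin n)) : ℕ) : ℂ)) (z : ℂ) :
    P.eval z = aug (Zf z G L) := by
  classical
  let Q : Polynomial ℂ := aug (Zf (Polynomial.X : Polynomial ℂ) G L)
  have hQ : ∀ w : ℂ, Q.eval w = aug (Zf w G L) := by
    intro w
    have h1 := map_aug (Polynomial.evalRingHom w) (Zf (Polynomial.X : Polynomial ℂ) G L)
    rw [map_Zf] at h1
    simpa using h1
  have hPQ : P = Q := by
    apply Polynomial.eq_of_infinite_eval_eq
    apply Set.Infinite.mono (s := Set.range (fun n : ℕ => ((n + 1 : ℕ) : ℂ)))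
    · rintro _ ⟨n, rfl⟩
      show Polynomial.eval _ P = Polynomial.eval _ Q
      rw [hP, hQ, aug_Zf_nat (n + 1) (Nat.succ_pos n) G L hL hLall]
    · apply Set.infinite_range_of_injective
      intro a b hab
      simp only [Nat.cast_inj] at hab
      omega
  rw [hPQ, hQ]

end Eval

section Final

variable {V : Type} [Fintype V] [DecidableEq V]

lemma goodList_nodup (G : SimpleGraph V) (k : ℕ) (L : List V) (h : GoodList G k L) : L.Nodup := by
  induction L with
  | nil => exact List.nodup_nil
  | cons c l ih => exact List.nodup_cons.mpr ⟨h.2.1, ih h.1⟩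

lemma stmt_of_good (k : ℕ) (q : ℂ) (m : ℝ) (hq : 0 < ‖q‖) (hm : m = 2 ^ (k + 1) / ‖q‖) (hm1 : m ≤ 1)
    (hκ : (1 + m) ^ k - 1 + 2 ^ k / ‖q‖ ≤ 1 / 2)
    (G0 : SimpleGraph V) (L : List V) (hL : GoodList G0 k L) : Stmt q m G0 L := by
  induction L with
  | nil =>
    intro G _
    exact ⟨isUnit_one, fun a b _ _ hb => absurd hb List.not_mem_nil⟩
  | cons c l ih =>
    obtain ⟨h1, h2, D, h3, h4, h5⟩ := hL
    exact stmt_step k q m hq hm hm1 hκ G0 c l
      (goodList_nodup G0 k (c :: l) ⟨h1, h2, D, h3, h4, h5⟩) D h3 h4 h5 (ih h1)

/-- Zero-free region: if any two vertices can be separated by at most `k` edges, the chromatic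
polynomial has no zero with `|z| ≥ k 2^(k+3)`. -/
theorem zero_free (k : ℕ) (hk : 0 < k) (G : SimpleGraph V)
    (h : ∀ u v : V, u ≠ v → ∃ X : Finset V, u ∈ X ∧ v ∉ X ∧ cutSize G X ≤ k)
    (P : Polynomial ℂ)
    (hP : ∀ n : ℕ, P.eval (n : ℂ) = ((Nat.card (G.Coloring (Fin n)) : ℕ) : ℂ)) (z : ℂ)
    (hz : (k : ℝ) * 2 ^ (k + 3) ≤ ‖z‖) : P.eval z ≠ 0 := by
  obtain ⟨L, hLall, hL⟩ := exists_goodList G k h
  have hk1 : (1 : ℝ) ≤ k := by exact_mod_cast hk
  have hp : (0 : ℝ) < 2 ^ (k + 3) := by positivity
  have hzpos : 0 < ‖z‖ := lt_of_lt_of_le (by positivity) hz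
  set m : ℝ := 2 ^ (k + 1) / ‖z‖ with hm
  have hmle : m ≤ 1 / (4 * k) := by
    rw [hm, div_le_div_iff₀ hzpos (by positivity)]
    calc (2:ℝ) ^ (k + 1) * (4 * k) = k * 2 ^ (k + 3) := by ring
      _ ≤ ‖z‖ := hz
      _ = 1 * ‖z‖ := (one_mul _).symm
  have hm0 : 0 ≤ m := by positivity
  have hkm : (k : ℝ) * m ≤ 1 / 4 := by
    calc (k : ℝ) * m ≤ k * (1 / (4 * k)) := by gcongr
      _ = 1 / 4 := by field_simp
  have hm1 : m ≤ 1 := by
    have : m ≤ k * m := by nlinarith
    linarith
  have h1 : (1 + m) ^ k ≤ 1 + 3 / 8 := by
    calc (1 + m) ^ k ≤ (Real.exp m) ^ k := by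
          gcongr
          linarith [Real.add_one_le_exp m]
      _ = Real.exp (k * m) := by rw [← Real.exp_nat_mul]
      _ ≤ Real.exp (1 / 4) := Real.exp_le_exp.mpr hkm
      _ ≤ 1 + 3 / 8 := by
          have h2 := Real.exp_bound' (x := 1 / 4) (by norm_num) (by norm_num) (n := 3) (by norm_num)
          refine h2.trans ?_
          norm_num [Finset.sum_range_succ, Nat.factorial]
  have h2 : (2:ℝ) ^ k / ‖z‖ ≤ 1 / 8 := by
    rw [div_le_div_iff₀ hzpos (by norm_num)]
    calc (2:ℝ) ^ k * 8 = 1 * 2 ^ (k + 3) := by ring
      _ ≤ k * 2 ^ (k + 3) := by gcongr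
      _ ≤ ‖z‖ := hz
      _ = 1 * ‖z‖ := (one_mul _).symm
  have hS := stmt_of_good k z m hzpos hm hm1 (by linarith) G L hL
  have hunit := (hS G le_rfl).1
  rw [eval_eq_aug G L (goodList_nodup G k L hL) hLall P hP z]
  exact (hunit.map aug).ne_zero

end Final

end Pool.Agent.Helper40
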