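import Mathlib

set_option autoImplicit false
set_option linter.unusedSectionVars false
set_option linter.unusedDecidableInType false
set_option linter.unusedFintypeInType false

namespace Pool.Agent.Helper40

open Finset

/-- Graphs on `V`, viewed as a commutative monoid under union. -/
def GM (V : Type) : Type := SimpleGraph V

section GMsec

variable {V : Type}

/-- Adjacency. -/
def GM.Adj (H : GM V) (i j : V) : Prop := SimpleGraph.Adj (V := V) H i j

lemma GM.ext {H K : GM V} (h : ∀ i j, H.Adj i j ↔ K.Adj i j) : H = K := by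
  apply SimpleGraph.ext (V := V)
  funext i j
  exact propext (h i j)

lemma GM.symm {H : GM V} {i j : V} (h : H.Adj i j) : H.Adj j i := SimpleGraph.Adj.symm h

lemma GM.ne {H : GM V} {i j : V} (h : H.Adj i j) : i ≠ j := SimpleGraph.Adj.ne h

instance : CommMonoid (GM V) where
  mul a b := max (α := SimpleGraph V) a b
  mul_assoc a b c := sup_assoc (α := SimpleGraph V) a b c
  one := (⊥ : SimpleGraph V)
  one_mul a := bot_sup_eq (α := SimpleGraph V) a
  mul_one a := sup_bot_eq (α := SimpleGraph V) a
  mul_comm a b := sup_comm (α := SimpleGraph V) a b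

lemma GM.mul_adj (H K : GM V) (i j : V) : (H * K).Adj i j ↔ H.Adj i j ∨ K.Adj i j :=
  SimpleGraph.sup_adj (V := V) H K i j

lemma GM.one_adj (i j : V) : (1 : GM V).Adj i j ↔ False := by
  show (⊥ : SimpleGraph V).Adj i j ↔ False
  simp

/-- `c` is not isolated in `H`. -/
def inv (c : V) (H : GM V) : Prop := ∃ j, H.Adj c j

/-- Eliminate the vertex `c`: its neighbours become a clique and `c` becomes isolated. -/
def contr (c : V) (H : GM V) : GM V where
  Adj i j := i ≠ c ∧ j ≠ c ∧ i ≠ j ∧ (H.Adj i j ∨ (H.Adj i c ∧ H.Adj j c))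
  symm := by
    constructor
    rintro i j ⟨h1, h2, h3, h4⟩
    refine ⟨h2, h1, h3.symm, ?_⟩
    rcases h4 with h4 | ⟨h4, h5⟩
    · exact Or.inl (GM.symm h4)
    · exact Or.inr ⟨h5, h4⟩
  loopless := by
    constructor
    rintro i ⟨_, _, h, _⟩
    exact h rfl

lemma contr_adj (c : V) (H : GM V) (i j : V) :
    (contr c H).Adj i j ↔ i ≠ c ∧ j ≠ c ∧ i ≠ j ∧ (H.Adj i j ∨ (H.Adj i c ∧ H.Adj j c)) :=
  Iff.rfl

lemma inv_mul (c : V) (H K : GM V) : inv c (H * K) ↔ inv c H ∨ inv c K := by
  unfold inv
  simp only [GM.mul_adj]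
  constructor
  · rintro ⟨j, h | h⟩
    · exact Or.inl ⟨j, h⟩
    · exact Or.inr ⟨j, h⟩
  · rintro (⟨j, h⟩ | ⟨j, h⟩)
    · exact ⟨j, Or.inl h⟩
    · exact ⟨j, Or.inr h⟩

lemma not_inv_one (c : V) : ¬ inv c (1 : GM V) := by
  rintro ⟨j, h⟩
  exact (GM.one_adj _ _).mp h

lemma not_inv_contr (c : V) (H : GM V) : ¬ inv c (contr c H) := by
  rintro ⟨j, h⟩
  exact h.1 rfl

lemma contr_mul (c : V) (H K : GM V) (h : ¬ inv c H) : contr c (H * K) = H * contr c K := by
  apply GM.ext
  intro i j
  rw [contr_adj, GM.mul_adj, GM.mul_adj, GM.mul_adj, GM.mul_adj, contr_adj]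
  have h1 : ∀ x, ¬ H.Adj x c := fun x hx => h ⟨x, GM.symm hx⟩
  have h2 : ∀ x, ¬ H.Adj c x := fun x hx => h ⟨x, hx⟩
  simp only [h1, false_or]
  constructor
  · rintro ⟨a, b, d, (e | e) | e⟩
    · exact Or.inl e
    · exact Or.inr ⟨a, b, d, Or.inl e⟩
    · exact Or.inr ⟨a, b, d, Or.inr e⟩
  · rintro (e | ⟨a, b, d, e⟩)
    · refine ⟨?_, ?_, GM.ne e, Or.inl (Or.inl e)⟩
      · rintro rfl; exact h2 _ e
      · rintro rfl; exact h1 _ e
    · refine ⟨a, b, d, ?_⟩
      rcases e with e | e
      · exact Or.inl (Or.inr e)
      · exact Or.inr e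

/-- A single edge. -/
def edgeG (a b : V) : GM V := SimpleGraph.edge a b

lemma edgeG_adj (a b i j : V) : (edgeG a b).Adj i j ↔ ((i = a ∧ j = b) ∨ (i = b ∧ j = a)) ∧ i ≠ j := by
  show (SimpleGraph.edge a b).Adj i j ↔ _
  rw [SimpleGraph.edge_adj]

end GMsec

section Alg

variable {V : Type} {K : Type} [CommRing K]

open MonoidAlgebra

/-- Sum over the colour of the vertex `c`. -/
noncomputable def T (q : K) (c : V) : MonoidAlgebra K (GM V) →ₗ[K] MonoidAlgebra K (GM V) := by
  classical
  exact (MonoidAlgebra.basis (GM V) K).constr K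
    (fun H => if inv c H then single (contr c H) 1 else single H q)

lemma T_single (q : K) (c : V) (H : GM V) (a : K) [Decidable (inv c H)] :
    T q c (single H a) = if inv c H then single (contr c H) a else single H (q * a) := by
  classical
  have h1 : (single H a : MonoidAlgebra K (GM V)) = a • (MonoidAlgebra.basis (GM V) K) H := by
    rw [MonoidAlgebra.basis_apply, MonoidAlgebra.smul_single']
    simp
  rw [h1, map_smul]
  unfold T
  rw [Module.Basis.constr_basis]
  split_ifs with h
  · rw [MonoidAlgebra.smul_single']; simp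
  · rw [MonoidAlgebra.smul_single']
    rw [mul_comm]

/-- Projection killing the graphs in which `c` is not isolated. -/
noncomputable def E (c : V) : MonoidAlgebra K (GM V) →+* MonoidAlgebra K (GM V) := by
  classical
  exact MonoidAlgebra.liftNCRingHom (MonoidAlgebra.singleOneRingHom (R := K) (M := GM V))
    { toFun := fun H => if inv c H then 0 else single H 1
      map_one' := by rw [if_neg (not_inv_one c)]; rfl
      map_mul' := by
        intro H K'
        by_cases h1 : inv c H
        · simp [inv_mul, h1]
        · by_cases h2 : inv c K'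
          · simp [inv_mul, h1, h2]
          · simp [inv_mul, h1, h2, MonoidAlgebra.single_mul_single] }
    (fun _ _ => Commute.all _ _)

lemma E_single (c : V) (H : GM V) (a : K) [Decidable (inv c H)] :
    E c (single H a) = if inv c H then 0 else single H a := by
  classical
  unfold E
  rw [MonoidAlgebra.liftNCRingHom_single]
  simp only [MonoidHom.coe_mk, OneHom.coe_mk]
  split_ifs with h
  · simp
  · show single 1 a * single H 1 = _
    rw [MonoidAlgebra.single_mul_single]
    simp

/-- evaluation at a colouring -/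
noncomputable def ev {α : Type} (τ : V → α) : MonoidAlgebra K (GM V) →+* K := by
  classical
  exact MonoidAlgebra.liftNCRingHom (RingHom.id K)
    { toFun := fun H => if (∀ i j, H.Adj i j → τ i = τ j) then 1 else 0
      map_one' := by
        rw [if_pos]
        intro i j h
        exact absurd h (by rw [GM.one_adj]; exact id)
      map_mul' := by
        intro H K'
        by_cases h1 : (∀ i j, H.Adj i j → τ i = τ j)
        · by_cases h2 : (∀ i j, K'.Adj i j → τ i = τ j)
          · rw [if_pos h1, if_pos h2, if_pos]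
            · simp
            · intro i j h
              rw [GM.mul_adj] at h
              rcases h with h | h
              · exact h1 i j h
              · exact h2 i j h
          · rw [if_pos h1, if_neg h2, if_neg]
            · simp
            · intro h
              exact h2 (fun i j hij => h i j ((GM.mul_adj _ _ _ _).mpr (Or.inr hij)))
        · rw [if_neg h1, if_neg, zero_mul]
          intro h
          exact h1 (fun i j hij => h i j ((GM.mul_adj _ _ _ _).mpr (Or.inl hij))) }
    (fun _ _ => Commute.all _ _)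

lemma ev_single {α : Type} (τ : V → α) (H : GM V) (a : K)
    [Decidable (∀ i j, H.Adj i j → τ i = τ j)] :
    ev τ (single H a) = if (∀ i j, H.Adj i j → τ i = τ j) then a else 0 := by
  classical
  unfold ev
  rw [MonoidAlgebra.liftNCRingHom_single]
  simp only [MonoidHom.coe_mk, OneHom.coe_mk, RingHom.id_apply]
  split_ifs with h
  · simp
  · simp

/-- `f` has all its graphs satisfying `Q`. -/
def Supp (Q : GM V → Prop) (f : MonoidAlgebra K (GM V)) : Prop := ∀ H, f.coeff H ≠ 0 → Q H

lemma induct {motive : MonoidAlgebra K (GM V) → Prop} (x : MonoidAlgebra K (GM V)) (zero : motive 0)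
    (add : ∀ f g, motive f → motive g → motive (f + g)) (single : ∀ H a, motive (single H a)) :
    motive x :=
  MonoidAlgebra.induction_linear x zero add single

lemma T_mul (q : K) (c : V) (g f : MonoidAlgebra K (GM V)) :
    T q c (E c g * f) = E c g * T q c f := by
  classical
  induction g using induct with
  | zero => simp
  | add g1 g2 h1 h2 => rw [map_add, add_mul, map_add, h1, h2, add_mul]
  | single H a =>
    induction f using induct with
    | zero => simp
    | add f1 f2 h1 h2 => rw [mul_add, map_add, h1, h2, map_add, mul_add]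
    | single K' b =>
      rw [E_single, T_single]
      by_cases h1 : inv c H
      · simp [h1]
      · rw [if_neg h1]
        by_cases h2 : inv c K'
        · rw [MonoidAlgebra.single_mul_single, T_single, if_pos h2,
            if_pos ((inv_mul c H K').mpr (Or.inr h2)), MonoidAlgebra.single_mul_single,
            contr_mul c H K' h1]
        · rw [MonoidAlgebra.single_mul_single, T_single, if_neg h2, if_neg,
            MonoidAlgebra.single_mul_single]
          · congr 1; ring
          · rw [inv_mul]; tauto

lemma E_idem (c : V) (f : MonoidAlgebra K (GM V)) : E c (E c f) = E c f := by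
  classical
  induction f using induct with
  | zero => simp
  | add f1 f2 h1 h2 => rw [map_add, map_add, h1, h2]
  | single H a =>
    rw [E_single]
    split_ifs with h
    · simp
    · rw [E_single, if_neg h]

lemma E_T (q : K) (c : V) (f : MonoidAlgebra K (GM V)) : E c (T q c f) = T q c f := by
  classical
  induction f using induct with
  | zero => simp
  | add f1 f2 h1 h2 => rw [map_add, map_add, h1, h2]
  | single H a =>
    rw [T_single]
    split_ifs with h
    · rw [E_single, if_neg (not_inv_contr c H)]
    · rw [E_single, if_neg h]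

lemma T_E (q : K) (c : V) (f : MonoidAlgebra K (GM V)) : T q c (E c f) = q • E c f := by
  classical
  induction f using induct with
  | zero => simp
  | add f1 f2 h1 h2 => rw [map_add, map_add, h1, h2, smul_add]
  | single H a =>
    rw [E_single]
    split_ifs with h
    · simp
    · rw [T_single, if_neg h, MonoidAlgebra.smul_single']

/-- the indicator that `a` and `b` have the same colour -/
noncomputable def dl (a b : V) : MonoidAlgebra K (GM V) := single (edgeG a b) 1

lemma E_dl (c w : V) (h : c ≠ w) : E c (dl c w : MonoidAlgebra K (GM V)) = 0 := by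
  classical
  unfold dl
  rw [E_single, if_pos]
  exact ⟨w, by rw [edgeG_adj]; exact ⟨Or.inl ⟨rfl, rfl⟩, h⟩⟩

end Alg

section Norm

variable {V : Type} [Fintype V]

noncomputable instance instFintypeGM : Fintype (GM V) := by
  classical
  exact (inferInstance : Fintype (SimpleGraph V))

open MonoidAlgebra

/-- the `ℓ¹` norm -/
noncomputable def N (f : MonoidAlgebra ℂ (GM V)) : ℝ := ∑ H, ‖f.coeff H‖

lemma N_nonneg (f : MonoidAlgebra ℂ (GM V)) : 0 ≤ N f :=
  Finset.sum_nonneg (fun _ _ => norm_nonneg _)

lemma N_zero : N (0 : MonoidAlgebra ℂ (GM V)) = 0 := by simp [N]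

lemma N_add (f g : MonoidAlgebra ℂ (GM V)) : N (f + g) ≤ N f + N g := by
  unfold N
  rw [← Finset.sum_add_distrib]
  refine Finset.sum_le_sum (fun H _ => ?_)
  rw [MonoidAlgebra.coeff_add]
  exact norm_add_le _ _

lemma N_neg (f : MonoidAlgebra ℂ (GM V)) : N (-f) = N f := by
  unfold N
  refine Finset.sum_congr rfl (fun H _ => ?_)
  rw [MonoidAlgebra.coeff_neg, Finsupp.neg_apply, norm_neg]

lemma N_sub (f g : MonoidAlgebra ℂ (GM V)) : N (f - g) ≤ N f + N g := by
  rw [sub_eq_add_neg]
  exact (N_add _ _).trans (by rw [N_neg])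

lemma N_smul (a : ℂ) (f : MonoidAlgebra ℂ (GM V)) : N (a • f) = ‖a‖ * N f := by
  unfold N
  rw [Finset.mul_sum]
  refine Finset.sum_congr rfl (fun H _ => ?_)
  rw [MonoidAlgebra.coeff_smul, Finsupp.smul_apply, norm_smul]

lemma N_single (H : GM V) (a : ℂ) : N (single H a : MonoidAlgebra ℂ (GM V)) = ‖a‖ := by
  classical
  unfold N
  rw [Finset.sum_eq_single H]
  · simp
  · intro K _ hK
    simp [hK.symm]
  · simp

lemma N_one : N (1 : MonoidAlgebra ℂ (GM V)) = 1 := by
  rw [MonoidAlgebra.one_def, N_single]; simp

lemma N_sum {ι : Type} (s : Finset ι) (f : ι → MonoidAlgebra ℂ (GM V)) :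
    N (∑ i ∈ s, f i) ≤ ∑ i ∈ s, N (f i) := by
  classical
  induction s using Finset.induction_on with
  | empty => simp [N_zero]
  | insert a s ha ih =>
    rw [Finset.sum_insert ha, Finset.sum_insert ha]
    exact (N_add _ _).trans (by linarith)

lemma eq_sum_single (f : MonoidAlgebra ℂ (GM V)) : f = ∑ H, single H (f.coeff H) := by
  classical
  apply MonoidAlgebra.coeff_injective
  ext K
  rw [MonoidAlgebra.coeff_sum, Finsupp.finsetSum_apply, Finset.sum_eq_single K]
  · simp
  · intro H _ hH
    simp [hH]
  · simp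

lemma N_mul (f g : MonoidAlgebra ℂ (GM V)) : N (f * g) ≤ N f * N g := by
  have h1 : f * g = ∑ H, ∑ K, single (H * K) (f.coeff H * g.coeff K) := by
    conv_lhs => rw [eq_sum_single f, eq_sum_single g]
    rw [Finset.sum_mul]
    refine Finset.sum_congr rfl (fun H _ => ?_)
    rw [Finset.mul_sum]
    refine Finset.sum_congr rfl (fun K _ => ?_)
    rw [MonoidAlgebra.single_mul_single]
  rw [h1]
  refine (N_sum _ _).trans ?_
  calc ∑ H, N (∑ K, single (H * K) (f.coeff H * g.coeff K) : MonoidAlgebra ℂ (GM V))
      ≤ ∑ H, ∑ K, ‖f.coeff H‖ * ‖g.coeff K‖ := by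
        refine Finset.sum_le_sum (fun H _ => ?_)
        refine (N_sum _ _).trans ?_
        refine Finset.sum_le_sum (fun K _ => ?_)
        rw [N_single, norm_mul]
    _ = N f * N g := by
        unfold N
        rw [Finset.sum_mul_sum]

lemma coeff_E (c : V) (f : MonoidAlgebra ℂ (GM V)) (H : GM V) [Decidable (inv c H)] :
    (E c f).coeff H = if inv c H then 0 else f.coeff H := by
  classical
  induction f using induct with
  | zero => simp
  | add f1 f2 h1 h2 =>
    rw [map_add, MonoidAlgebra.coeff_add, Finsupp.add_apply, h1, h2, MonoidAlgebra.coeff_add,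
      Finsupp.add_apply]
    split_ifs <;> simp
  | single K a =>
    rw [E_single]
    by_cases hK : K = H
    · subst hK
      by_cases h : inv c K <;> simp [h]
    · by_cases h : inv c K <;> by_cases h' : inv c H <;> simp [h, h', hK]

lemma N_split (c : V) (f : MonoidAlgebra ℂ (GM V)) : N (E c f) + N (f - E c f) = N f := by
  classical
  unfold N
  rw [← Finset.sum_add_distrib]
  refine Finset.sum_congr rfl (fun H _ => ?_)
  rw [MonoidAlgebra.coeff_sub, Finsupp.sub_apply, coeff_E]
  split_ifs <;> simp

lemma N_E (c : V) (f : MonoidAlgebra ℂ (GM V)) : N (E c f) ≤ N f := by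
  have := N_split c f
  have := N_nonneg (f - E c f)
  linarith

lemma N_T (q : ℂ) (c : V) (f : MonoidAlgebra ℂ (GM V)) : N (T q c (f - E c f)) ≤ N (f - E c f) := by
  classical
  have h1 : f - E c f = ∑ H, (if inv c H then single H (f.coeff H) else 0) := by
    conv_lhs => rw [eq_sum_single (f - E c f)]
    refine Finset.sum_congr rfl (fun H _ => ?_)
    rw [MonoidAlgebra.coeff_sub, Finsupp.sub_apply, coeff_E]
    split_ifs <;> simp
  have h2 : N (f - E c f) = ∑ H, (if inv c H then ‖f.coeff H‖ else 0) := by
    unfold N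
    refine Finset.sum_congr rfl (fun H _ => ?_)
    rw [MonoidAlgebra.coeff_sub, Finsupp.sub_apply, coeff_E]
    split_ifs <;> simp
  rw [h2, h1, map_sum]
  refine (N_sum _ _).trans ?_
  refine Finset.sum_le_sum (fun H _ => ?_)
  split_ifs with h
  · rw [T_single, if_pos h, N_single]
  · rw [map_zero, N_zero]

lemma N_eq_zero (f : MonoidAlgebra ℂ (GM V)) (h : N f = 0) : f = 0 := by
  apply MonoidAlgebra.coeff_injective
  ext K
  unfold N at h
  rw [Finset.sum_eq_zero_iff_of_nonneg (fun _ _ => norm_nonneg _)] at h
  have := h K (Finset.mem_univ K)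
  simpa using this

lemma exists_inv (κ : MonoidAlgebra ℂ (GM V)) (h : N κ < 1) :
    ∃ g, (1 + κ) * g = 1 ∧ N g ≤ 1 / (1 - N κ) := by
  have hlow : ∀ x, (1 - N κ) * N x ≤ N ((1 + κ) * x) := by
    intro x
    have h1 : x = (1 + κ) * x - κ * x := by ring
    have h2 : N x ≤ N ((1 + κ) * x) + N κ * N x := by
      conv_lhs => rw [h1]
      exact (N_sub _ _).trans (by have := N_mul κ x; linarith)
    linarith
  have : Module.Finite ℂ (MonoidAlgebra ℂ (GM V)) :=
    Module.Finite.of_basis (MonoidAlgebra.basis (GM V) ℂ)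
  have hinj : Function.Injective (LinearMap.mulLeft ℂ (1 + κ)) := by
    rw [← LinearMap.ker_eq_bot, LinearMap.ker_eq_bot']
    intro x hx
    rw [LinearMap.mulLeft_apply] at hx
    have h1 := hlow x
    rw [hx, N_zero] at h1
    apply N_eq_zero
    have h2 := N_nonneg x
    nlinarith
  have hsurj := (LinearMap.injective_iff_surjective (f := LinearMap.mulLeft ℂ (1 + κ))).mp hinj
  obtain ⟨g, hg⟩ := hsurj 1
  rw [LinearMap.mulLeft_apply] at hg
  refine ⟨g, hg, ?_⟩
  have h1 := hlow g
  rw [hg, N_one] at h1
  rw [le_div_iff₀ (by linarith)]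
  linarith

end Norm

end Pool.Agent.Helper40
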