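import Mathlib

set_option autoImplicit false
set_option linter.unusedSectionVars false

namespace Pool.Agent.Helper40

open Finset

section Menger

variable {V : Type} [Fintype V] {G : SimpleGraph V}

/-- Number of traversals of the dart `(x, y)` by the walk `p`. -/
noncomputable def cnt {u v : V} (p : G.Walk u v) (x y : V) : ℕ := by
  classical
  exact p.darts.countP (fun d => d.fst = x ∧ d.snd = y)

lemma cnt_nil {u : V} (x y : V) : cnt (SimpleGraph.Walk.nil : G.Walk u u) x y = 0 := by
  classical
  simp [cnt]

lemma cnt_cons {u v w : V} (h : G.Adj u v) (p : G.Walk v w) (x y : V) [DecidableEq V] :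
    cnt (SimpleGraph.Walk.cons h p) x y = cnt p x y + (if u = x ∧ v = y then 1 else 0) := by
  classical
  unfold cnt
  rw [SimpleGraph.Walk.darts_cons, List.countP_cons]
  congr 1
  simp

lemma sum_cnt {u v : V} (p : G.Walk u v) (x : V) [DecidableEq V] :
    ∑ y, ((cnt p x y : ℤ) - (cnt p y x : ℤ)) =
      (if x = u then 1 else 0) - (if x = v then 1 else 0) := by
  induction p with
  | nil => simp [cnt_nil]
  | @cons a b c h p ih =>
    simp only [cnt_cons, Nat.cast_add]
    have e1 : ∀ y, ((cnt p x y : ℤ) + ((if a = x ∧ b = y then 1 else 0 : ℕ) : ℤ)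
        - ((cnt p y x : ℤ) + ((if a = y ∧ b = x then 1 else 0 : ℕ) : ℤ)))
        = ((cnt p x y : ℤ) - (cnt p y x : ℤ)) +
          ((if a = x ∧ b = y then 1 else 0 : ℤ) - (if a = y ∧ b = x then 1 else 0 : ℤ)) := by
      intro y
      push_cast
      ring
    rw [Finset.sum_congr rfl (fun y _ => e1 y), Finset.sum_add_distrib, ih,
      Finset.sum_sub_distrib]
    have e2 : ∑ y, (if a = x ∧ b = y then 1 else 0 : ℤ) = if x = a then 1 else 0 := by
      by_cases hx : a = x
      · subst hx; simp
      · simp [hx, Ne.symm hx]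
    have e3 : ∑ y, (if a = y ∧ b = x then 1 else 0 : ℤ) = if x = b then 1 else 0 := by
      by_cases hx : b = x
      · subst hx; simp
      · simp [hx, Ne.symm hx]
    rw [e2, e3]
    ring

lemma cnt_pos_iff {u v : V} (p : G.Walk u v) (x y : V) :
    0 < cnt p x y ↔ ∃ d ∈ p.darts, d.fst = x ∧ d.snd = y := by
  classical
  unfold cnt
  rw [List.countP_pos_iff]
  simp

lemma cnt_add_le_one {u v : V} (p : G.Walk u v) (hp : p.IsTrail) (x y : V) (hxy : x ≠ y) :
    cnt p x y + cnt p y x ≤ 1 := by
  classical
  have h1 : p.edges.Nodup := hp.edges_nodup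
  have h2 : cnt p x y + cnt p y x ≤ p.edges.count s(x, y) := by
    unfold cnt SimpleGraph.Walk.edges
    rw [List.count, List.countP_map]
    induction p.darts with
    | nil => simp
    | cons d l ih =>
      simp only [List.countP_cons]
      by_cases h3 : d.fst = x ∧ d.snd = y
      · have h4 : ¬ (d.fst = y ∧ d.snd = x) := by
          rintro ⟨h5, h6⟩
          exact hxy (h3.1.symm.trans h5)
        have h5 : (((fun e => e == s(x, y)) ∘ SimpleGraph.Dart.edge) d) = true := by
          simp only [beq_iff_eq, Function.comp]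
          rw [SimpleGraph.dart_edge_eq_mk'_iff]
          left
          ext <;> simp [h3.1, h3.2]
        rw [if_pos (by simpa using h3), if_neg (by simpa using h4), if_pos h5]
        omega
      · by_cases h4 : d.fst = y ∧ d.snd = x
        · have h5 : (((fun e => e == s(x, y)) ∘ SimpleGraph.Dart.edge) d) = true := by
            simp only [beq_iff_eq, Function.comp]
            rw [SimpleGraph.dart_edge_eq_mk'_iff]
            right
            ext <;> simp [h4.1, h4.2]
          rw [if_neg (by simpa using h3), if_pos (by simpa using h4), if_pos h5]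
          omega
        · rw [if_neg (by simpa using h3), if_neg (by simpa using h4)]
          omega
  exact h2.trans (List.nodup_iff_count_le_one.mp h1 _)

/-- Integral flows bounded by one along edges. -/
structure IsFlow (G : SimpleGraph V) (f : V → V → ℤ) : Prop where
  anti : ∀ x y, f x y = - f y x
  le_one : ∀ x y, f x y ≤ 1
  adj : ∀ x y, f x y ≠ 0 → G.Adj x y

/-- Flow from `u` to `v` of value `m`. -/
def FlowVal (f : V → V → ℤ) (u v : V) (m : ℤ) : Prop := by
  classical
  exact ∀ x, ∑ y, f x y = m * ((if x = u then 1 else 0) - (if x = v then 1 else 0))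

lemma exists_cut_of_not_reach (r : V → V → Prop) (u v : V)
    (h : ¬ ∃ p : G.Walk u v, ∀ d ∈ p.darts, r d.fst d.snd) :
    ∃ X : Finset V, u ∈ X ∧ v ∉ X ∧ ∀ x ∈ X, ∀ y, y ∉ X → G.Adj x y → ¬ r x y := by
  classical
  refine ⟨univ.filter (fun x => ∃ p : G.Walk u x, ∀ d ∈ p.darts, r d.fst d.snd), ?_, ?_, ?_⟩
  · simp only [mem_filter, mem_univ, true_and]
    exact ⟨SimpleGraph.Walk.nil, by simp⟩
  · simpa using h
  · intro x hx y hy hxy hr
    apply hy
    simp only [mem_filter, mem_univ, true_and] at hx ⊢
    obtain ⟨p, hp⟩ := hx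
    refine ⟨p.concat hxy, ?_⟩
    intro d hd
    rw [SimpleGraph.Walk.darts_concat, List.concat_eq_append, List.mem_append] at hd
    rcases hd with hd | hd
    · exact hp d hd
    · simp only [List.mem_singleton] at hd
      subst hd
      exact hr

lemma flow_cut {f : V → V → ℤ} (hf : IsFlow G f) (u v : V) (huv : u ≠ v) (m : ℤ)
    (hm : FlowVal f u v m) (X : Finset V) (hu : u ∈ X) (hv : v ∉ X) [DecidableEq V] :
    ∑ x ∈ X, ∑ y ∈ Xᶜ, f x y = m := by
  classical
  have h1 : ∑ x ∈ X, ∑ y, f x y = m := by
    have : ∀ x ∈ X, ∑ y, f x y = if x = u then m else 0 := by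
      intro x hx
      rw [hm x]
      have hxv : x ≠ v := fun h => hv (h ▸ hx)
      by_cases h : x = u <;> simp [h, hxv, huv]
    rw [Finset.sum_congr rfl this]
    simp [hu]
  have h2 : ∑ x ∈ X, ∑ y ∈ X, f x y = 0 := by
    have h3 : ∑ x ∈ X, ∑ y ∈ X, f x y = - ∑ x ∈ X, ∑ y ∈ X, f x y := by
      conv_lhs => rw [Finset.sum_comm]
      rw [← Finset.sum_neg_distrib]
      refine Finset.sum_congr rfl (fun x _ => ?_)
      rw [← Finset.sum_neg_distrib]
      exact Finset.sum_congr rfl (fun y _ => hf.anti y x)
    linarith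
  have h3 : ∑ x ∈ X, ∑ y, f x y = ∑ x ∈ X, ∑ y ∈ X, f x y + ∑ x ∈ X, ∑ y ∈ Xᶜ, f x y := by
    rw [← Finset.sum_add_distrib]
    refine Finset.sum_congr rfl (fun x _ => ?_)
    rw [Finset.sum_add_sum_compl]
  rw [h1, h2] at h3
  linarith

lemma flow_path_step {f : V → V → ℤ} (hf : IsFlow G f) (u v : V) (m : ℤ)
    (hm : FlowVal f u v m) (p : G.Walk u v) (hp : p.IsPath) (s : ℤ) (hs : s = 1 ∨ s = -1)
    (hr : ∀ d ∈ p.darts, s * f d.fst d.snd < 1) (hs' : s = -1 → ∀ d ∈ p.darts, f d.fst d.snd = 1) :
    IsFlow G (fun x y => f x y + s * ((cnt p x y : ℤ) - (cnt p y x : ℤ))) ∧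
    FlowVal (fun x y => f x y + s * ((cnt p x y : ℤ) - (cnt p y x : ℤ))) u v (m + s) := by
  classical
  have hadj : ∀ x y, 0 < cnt p x y → G.Adj x y := by
    intro x y h
    obtain ⟨d, _, h1, h2⟩ := (cnt_pos_iff p x y).mp h
    have := d.adj
    rw [h1, h2] at this
    exact this
  have hself : ∀ x, cnt p x x = 0 := by
    intro x
    by_contra h
    exact (hadj x x (Nat.pos_of_ne_zero h)).ne rfl
  refine ⟨⟨?_, ?_, ?_⟩, ?_⟩
  · intro x y
    have := hf.anti x y
    linarith
  · intro x y
    by_cases hxy : x = y
    · subst hxy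
      have := hf.le_one x x
      simp [hself x]
      exact this
    · have h1 := cnt_add_le_one p hp.isTrail x y hxy
      by_cases h2 : 0 < cnt p x y
      · have h3 : cnt p x y = 1 := by omega
        have h4 : cnt p y x = 0 := by omega
        obtain ⟨d, hd, h5, h6⟩ := (cnt_pos_iff p x y).mp h2
        have h7 := hr d hd
        rw [h5, h6] at h7
        rcases hs with hs | hs
        · subst hs
          simp [h3, h4]
          linarith
        · subst hs
          simp [h3, h4]
          have := hf.le_one x y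
          linarith
      · by_cases h3 : 0 < cnt p y x
        · have h4 : cnt p y x = 1 := by omega
          have h5 : cnt p x y = 0 := by omega
          obtain ⟨d, hd, h6, h7⟩ := (cnt_pos_iff p y x).mp h3
          rcases hs with hs | hs
          · subst hs
            simp [h4, h5]
            have := hf.le_one x y
            linarith
          · have h8 := hs' hs d hd
            rw [h6, h7] at h8
            have h9 := hf.anti x y
            subst hs
            simp [h4, h5]
            linarith
        · have h4 : cnt p x y = 0 := by omega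
          have h5 : cnt p y x = 0 := by omega
          simp [h4, h5]
          exact hf.le_one x y
  · intro x y h
    by_contra hn
    have h1 : f x y = 0 := by
      by_contra h2
      exact hn (hf.adj x y h2)
    have h2 : cnt p x y = 0 := by
      by_contra h3
      exact hn (hadj x y (Nat.pos_of_ne_zero h3))
    have h3 : cnt p y x = 0 := by
      by_contra h3
      exact hn (hadj y x (Nat.pos_of_ne_zero h3)).symm
    apply h
    simp [h1, h2, h3]
  · intro x
    simp only
    rw [Finset.sum_add_distrib, ← Finset.mul_sum, sum_cnt p x]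
    have := hm x
    rw [this]
    ring

/-- Number of edges leaving `X` (counted as ordered pairs with first entry in `X`). -/
noncomputable def cutSize (G : SimpleGraph V) (X : Finset V) : ℕ := by
  classical
  exact ((univ : Finset (V × V)).filter (fun p => p.1 ∈ X ∧ p.2 ∉ X ∧ G.Adj p.1 p.2)).card

lemma flow_le_cut_aux {f : V → V → ℤ} (hf : IsFlow G f) (X : Finset V) [DecidableEq V]
    (h : ∀ x ∈ X, ∀ y, y ∉ X → G.Adj x y → ¬ f x y < 1) :
    (cutSize G X : ℤ) = ∑ x ∈ X, ∑ y ∈ Xᶜ, f x y := by
  classical
  unfold cutSize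
  rw [Finset.card_filter]
  push_cast
  rw [Fintype.sum_prod_type]
  have e1 : ∀ x : V, (∑ y : V, if (x, y).1 ∈ X ∧ (x, y).2 ∉ X ∧ G.Adj (x, y).1 (x, y).2
      then (1 : ℤ) else 0) = if x ∈ X then ∑ y ∈ Xᶜ, f x y else 0 := by
    intro x
    by_cases hx : x ∈ X
    · simp only [hx, true_and, if_true]
      rw [← Finset.sum_filter_add_sum_filter_not (s := (univ : Finset V)) (p := fun y => y ∈ Xᶜ)]
      have e2 : ∑ y ∈ univ.filter (fun y => ¬ y ∈ Xᶜ), (if y ∉ X ∧ G.Adj x y then (1 : ℤ) else 0) = 0 := by
        apply Finset.sum_eq_zero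
        intro y hy
        have : y ∈ X := by simpa using hy
        simp [this]
      rw [e2, add_zero]
      have e3 : (univ.filter (fun y => y ∈ Xᶜ)) = Xᶜ := by ext; simp
      rw [e3]
      refine Finset.sum_congr rfl (fun y hy => ?_)
      have hy' : y ∉ X := by simpa using hy
      by_cases hxy : G.Adj x y
      · have h1 := h x hx y hy' hxy
        have h2 := hf.le_one x y
        simp only [hy', hxy, not_false_eq_true, and_self, if_true]
        omega
      · have h1 : f x y = 0 := by
          by_contra h2
          exact hxy (hf.adj x y h2)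
        simp [hxy, h1]
    · simp [hx]
  rw [Finset.sum_congr rfl (fun x _ => e1 x)]
  rw [Finset.sum_ite, Finset.sum_const_zero, add_zero]
  congr 1
  ext; simp

lemma exists_flow_or_cut (u v : V) (huv : u ≠ v) (j : ℕ) :
    (∃ f : V → V → ℤ, IsFlow G f ∧ FlowVal f u v j) ∨
    (∃ X : Finset V, u ∈ X ∧ v ∉ X ∧ cutSize G X < j) := by
  classical
  induction j with
  | zero =>
    left
    refine ⟨fun _ _ => 0, ⟨by simp, by simp, by simp⟩, ?_⟩
    intro x
    simp
  | succ j ih =>
    rcases ih with ⟨f, hf, hv⟩ | ⟨X, h1, h2, h3⟩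
    · by_cases hr : ∃ p : G.Walk u v, ∀ d ∈ p.darts, f d.fst d.snd < 1
      · left
        obtain ⟨p, hp⟩ := hr
        have h1 : ∀ d ∈ p.bypass.darts, (1 : ℤ) * f d.fst d.snd < 1 := by
          intro d hd
          rw [one_mul]
          exact hp d (SimpleGraph.Walk.darts_bypass_subset_darts p hd)
        obtain ⟨h2, h3⟩ := flow_path_step hf u v j hv p.bypass (SimpleGraph.Walk.bypass_isPath p) 1
          (Or.inl rfl) h1 (by intro h; norm_num at h)
        refine ⟨_, h2, ?_⟩
        push_cast
        exact h3
      · right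
        obtain ⟨X, hu, hvX, hX⟩ := exists_cut_of_not_reach (G := G) (fun x y => f x y < 1) u v hr
        refine ⟨X, hu, hvX, ?_⟩
        have h1 := flow_le_cut_aux hf X hX
        rw [flow_cut hf u v huv j hv X hu hvX] at h1
        have h2 : cutSize G X = j := by exact_mod_cast h1
        omega
    · right
      exact ⟨X, h1, h2, by omega⟩

lemma exists_paths_of_flow (u v : V) (huv : u ≠ v) (m : ℕ) :
    ∀ f : V → V → ℤ, IsFlow G f → FlowVal f u v m →
    ∃ p : Fin m → G.Walk u v, (∀ i, (p i).IsPath) ∧
      Pairwise (fun i j => List.Disjoint (p i).edges (p j).edges) ∧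
      ∀ i, ∀ d ∈ (p i).darts, f d.fst d.snd = 1 := by
  classical
  induction m with
  | zero =>
    intro f _ _
    exact ⟨fun i => i.elim0, fun i => i.elim0, fun i => i.elim0, fun i => i.elim0⟩
  | succ m ih =>
    intro f hf hv
    have hr : ∃ p : G.Walk u v, ∀ d ∈ p.darts, f d.fst d.snd = 1 := by
      by_contra hr
      obtain ⟨X, hu, hvX, hX⟩ := exists_cut_of_not_reach (G := G) (fun x y => f x y = 1) u v hr
      have h1 := flow_cut hf u v huv _ hv X hu hvX
      have h2 : ∑ x ∈ X, ∑ y ∈ Xᶜ, f x y ≤ 0 := by
        apply Finset.sum_nonpos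
        intro x hx
        apply Finset.sum_nonpos
        intro y hy
        have hy' : y ∉ X := by simpa using hy
        by_cases hxy : G.Adj x y
        · have h1 := hX x hx y hy' hxy
          have h2 := hf.le_one x y
          omega
        · have h1 : f x y = 0 := by
            by_contra h2
            exact hxy (hf.adj x y h2)
          rw [h1]
      rw [h1] at h2
      push_cast at h2
      linarith [Int.natCast_nonneg m]
    obtain ⟨p, hp⟩ := hr
    set p0 := p.bypass with hp0
    have hp1 : ∀ d ∈ p0.darts, f d.fst d.snd = 1 := fun d hd =>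
      hp d (SimpleGraph.Walk.darts_bypass_subset_darts p hd)
    have hpath : p0.IsPath := SimpleGraph.Walk.bypass_isPath p
    obtain ⟨h2, h3⟩ := flow_path_step hf u v _ hv p0 hpath (-1)
          (Or.inr rfl) (by intro d hd; rw [hp1 d hd]; norm_num) (fun _ => hp1)
    have h3' : FlowVal (fun x y => f x y + -1 * ((cnt p0 x y : ℤ) - (cnt p0 y x : ℤ))) u v (m : ℤ) := by
      have : ((m + 1 : ℕ) : ℤ) + -1 = (m : ℤ) := by push_cast; ring
      rw [this] at h3
      exact h3
    obtain ⟨q, hq1, hq2, hq3⟩ := ih _ h2 h3'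
    have hpc : ∀ x y, 0 < cnt p0 x y → f x y = 1 := by
      intro x y h
      obtain ⟨d, hd, h5, h6⟩ := (cnt_pos_iff p0 x y).mp h
      have := hp1 d hd
      rw [h5, h6] at this
      exact this
    have key : ∀ i, ∀ d ∈ (q i).darts, f d.fst d.snd = 1 ∧ cnt p0 d.fst d.snd = 0 ∧
        cnt p0 d.snd d.fst = 0 := by
      intro i d hd
      have h5 := hq3 i d hd
      have h6 := cnt_add_le_one p0 hpath.isTrail d.fst d.snd d.adj.ne
      by_cases h7 : 0 < cnt p0 d.fst d.snd
      · have h8 := hpc _ _ h7
        have h9 : cnt p0 d.fst d.snd = 1 := by omega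
        have h10 : cnt p0 d.snd d.fst = 0 := by omega
        rw [h8, h9, h10] at h5
        norm_num at h5
      · by_cases h8 : 0 < cnt p0 d.snd d.fst
        · have h9 := hpc _ _ h8
          have h10 : cnt p0 d.snd d.fst = 1 := by omega
          have h11 : cnt p0 d.fst d.snd = 0 := by omega
          rw [hf.anti d.fst d.snd, h9, h10, h11] at h5
          norm_num at h5
        · have h9 : cnt p0 d.fst d.snd = 0 := by omega
          have h10 : cnt p0 d.snd d.fst = 0 := by omega
          refine ⟨?_, h9, h10⟩
          rw [h9, h10] at h5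
          simpa using h5
    have hdisj : ∀ i, List.Disjoint p0.edges (q i).edges := by
      intro i e he he'
      unfold SimpleGraph.Walk.edges at he he'
      rw [List.mem_map] at he he'
      obtain ⟨d1, hd1, rfl⟩ := he
      obtain ⟨d2, hd2, h⟩ := he'
      obtain ⟨_, h4, h5⟩ := key i d2 hd2
      have h6 : 0 < cnt p0 d1.fst d1.snd := (cnt_pos_iff p0 _ _).mpr ⟨d1, hd1, rfl, rfl⟩
      rw [SimpleGraph.dart_edge_eq_iff] at h
      rcases h with h | h
      · rw [h] at h4
        omega
      · rw [h] at h5
        simp at h5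
        omega
    refine ⟨Fin.cons p0 q, ?_, ?_, ?_⟩
    · intro i
      refine Fin.cases ?_ ?_ i
      · simpa using hpath
      · intro i; simpa using hq1 i
    · intro i j
      refine Fin.cases ?_ ?_ i
      · refine Fin.cases ?_ ?_ j
        · intro h; exact absurd rfl h
        · intro j _
          simpa using hdisj j
      · intro i
        refine Fin.cases ?_ ?_ j
        · intro _
          simpa using (hdisj i).symm
        · intro j h
          have : i ≠ j := fun h' => h (by rw [h'])
          simpa using hq2 this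
    · intro i
      refine Fin.cases ?_ ?_ i
      · simpa using hp1
      · intro i d hd
        simp only [Fin.cons_succ] at hd
        exact (key i d hd).1

/-- Edge version of Menger's theorem. -/
theorem exists_cut_of_no_paths (k : ℕ) (u v : V) (huv : u ≠ v)
    (h : ¬ ∃ p : Fin (k + 1) → G.Walk u v,
          (∀ i, (p i).IsPath) ∧ Pairwise (fun i j => List.Disjoint (p i).edges (p j).edges)) :
    ∃ X : Finset V, u ∈ X ∧ v ∉ X ∧ cutSize G X ≤ k := by
  rcases exists_flow_or_cut (G := G) u v huv (k + 1) with ⟨f, hf, hv⟩ | ⟨X, h1, h2, h3⟩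
  · exfalso
    obtain ⟨p, h1, h2, _⟩ := exists_paths_of_flow u v huv (k + 1) f hf hv
    exact h ⟨p, h1, h2⟩
  · exact ⟨X, h1, h2, by omega⟩

end Menger

end Pool.Agent.Helper40
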