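import Pool.Agent.Helper40.GraphAlg
import Pool.Agent.Helper40.CutOrder

set_option autoImplicit false
set_option linter.unusedSectionVars false
set_option linter.unusedDecidableInType false
set_option linter.unusedFintypeInType false

namespace Pool.Agent.Helper40

open Finset MonoidAlgebra

section Zdef

variable {V : Type} [Fintype V] {K : Type} [CommRing K]

/-- Neighbours of `c` outside the list `c :: l`. -/
noncomputable def outN (G : SimpleGraph V) (c : V) (l : List V) : Finset V := by
  classical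
  exact univ.filter (fun w => w ≠ c ∧ w ∉ l ∧ G.Adj c w)

lemma mem_outN (G : SimpleGraph V) (c : V) (l : List V) (w : V) :
    w ∈ outN G c l ↔ w ≠ c ∧ w ∉ l ∧ G.Adj c w := by
  unfold outN
  simp

/-- Partition function of the set of vertices in the list, as an element of the graph algebra
on the remaining vertices. -/
noncomputable def Zf (q : K) (G : SimpleGraph V) : List V → MonoidAlgebra K (GM V)
  | [] => 1
  | c :: l => T q c (Zf q G l * ∏ w ∈ outN G c l, (1 - dl c w))

lemma Zf_cons (q : K) (G : SimpleGraph V) (c : V) (l : List V) :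
    Zf q G (c :: l) = T q c (Zf q G l * ∏ w ∈ outN G c l, (1 - dl c w)) := rfl

lemma Zf_congr (q : K) (G G' : SimpleGraph V) (l : List V)
    (h : ∀ x ∈ l, ∀ y, G.Adj x y ↔ G'.Adj x y) : Zf q G l = Zf q G' l := by
  induction l with
  | nil => rfl
  | cons c l ih =>
    rw [Zf_cons, Zf_cons, ih (fun x hx y => h x (List.mem_cons_of_mem _ hx) y)]
    have h1 : outN G c l = outN G' c l := by
      ext w
      rw [mem_outN, mem_outN, h c List.mem_cons_self w]
    rw [h1]

end Zdef

section SuppSec

variable {V : Type} {K : Type} [CommRing K]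

lemma Supp_one (Q : GM V → Prop) (h : Q 1) : Supp Q (1 : MonoidAlgebra K (GM V)) := by
  classical
  intro H hH
  rw [MonoidAlgebra.one_def, MonoidAlgebra.coeff_single, Finsupp.single_apply] at hH
  split_ifs at hH with h1
  · rw [← h1]; exact h
  · exact absurd rfl hH

lemma Supp_single (Q : GM V → Prop) (H : GM V) (a : K) (h : Q H) :
    Supp Q (single H a : MonoidAlgebra K (GM V)) := by
  classical
  intro H' hH'
  rw [MonoidAlgebra.coeff_single, Finsupp.single_apply] at hH'
  split_ifs at hH' with h1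
  · rw [← h1]; exact h
  · exact absurd rfl hH'

lemma Supp_add (Q : GM V → Prop) (f g : MonoidAlgebra K (GM V)) (hf : Supp Q f) (hg : Supp Q g) :
    Supp Q (f + g) := by
  intro H hH
  rw [MonoidAlgebra.coeff_add, Finsupp.add_apply] at hH
  by_cases h1 : f.coeff H = 0
  · apply hg H
    intro h2
    apply hH
    rw [h1, h2, add_zero]
  · exact hf H h1

lemma Supp_neg (Q : GM V → Prop) (f : MonoidAlgebra K (GM V)) (hf : Supp Q f) :
    Supp Q (-f) := by
  intro H hH
  apply hf H
  intro h
  apply hH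
  rw [MonoidAlgebra.coeff_neg, Finsupp.neg_apply, h, neg_zero]

lemma Supp_sub (Q : GM V → Prop) (f g : MonoidAlgebra K (GM V)) (hf : Supp Q f) (hg : Supp Q g) :
    Supp Q (f - g) := by
  rw [sub_eq_add_neg]
  exact Supp_add Q f _ hf (Supp_neg Q g hg)

lemma Supp_mul (Q : GM V → Prop) (hQ : ∀ H H', Q H → Q H' → Q (H * H'))
    (f g : MonoidAlgebra K (GM V)) (hf : Supp Q f) (hg : Supp Q g) :
    Supp Q (f * g) := by
  classical
  intro H hH
  have h1 := MonoidAlgebra.support_coeff_mul_subset f g
  have h2 : H ∈ (f * g).coeff.support := Finsupp.mem_support_iff.mpr hH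
  have h3 := h1 h2
  rw [Finset.mem_mul] at h3
  obtain ⟨A, hA, B, hB, rfl⟩ := h3
  exact hQ A B (hf A (Finsupp.mem_support_iff.mp hA)) (hg B (Finsupp.mem_support_iff.mp hB))

lemma Supp_prod (Q : GM V → Prop) (h1 : Q 1) (hQ : ∀ H H', Q H → Q H' → Q (H * H'))
    {ι : Type} (s : Finset ι) (f : ι → MonoidAlgebra K (GM V)) (hf : ∀ i ∈ s, Supp Q (f i)) :
    Supp Q (∏ i ∈ s, f i) := by
  classical
  induction s using Finset.induction_on with
  | empty => simpa using Supp_one Q h1
  | insert a s ha ih =>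
    rw [Finset.prod_insert ha]
    exact Supp_mul Q hQ _ _ (hf a (Finset.mem_insert_self _ _))
      (ih (fun i hi => hf i (Finset.mem_insert_of_mem hi)))

lemma Supp_zero (Q : GM V → Prop) : Supp Q (0 : MonoidAlgebra K (GM V)) := by
  intro H hH
  exact absurd (by simp) hH

lemma Supp_sum (Q : GM V → Prop)
    {ι : Type} (s : Finset ι) (f : ι → MonoidAlgebra K (GM V)) (hf : ∀ i ∈ s, Supp Q (f i)) :
    Supp Q (∑ i ∈ s, f i) := by
  classical
  induction s using Finset.induction_on with
  | empty => simpa using Supp_zero Q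
  | insert a s ha ih =>
    rw [Finset.sum_insert ha]
    exact Supp_add Q _ _ (hf a (Finset.mem_insert_self _ _))
      (ih (fun i hi => hf i (Finset.mem_insert_of_mem hi)))

lemma eq_sum_support (f : MonoidAlgebra K (GM V)) : f = ∑ H ∈ f.coeff.support, single H (f.coeff H) := by
  conv_lhs => rw [← MonoidAlgebra.sum_coeff_single f]
  rfl

lemma Supp_T (Q Q' : GM V → Prop) (q : K) (c : V) (h1 : ∀ H, Q H → inv c H → Q' (contr c H))
    (h2 : ∀ H, Q H → ¬ inv c H → Q' H) (f : MonoidAlgebra K (GM V)) (hf : Supp Q f) :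
    Supp Q' (T q c f) := by
  classical
  rw [eq_sum_support f, map_sum]
  apply Supp_sum
  intro H hH
  have hQH := hf H (Finsupp.mem_support_iff.mp hH)
  rw [T_single]
  split_ifs with h
  · exact Supp_single _ _ _ (h1 H hQH h)
  · exact Supp_single _ _ _ (h2 H hQH h)

lemma E_eq_of_Supp (c : V) (f : MonoidAlgebra K (GM V)) (hf : Supp (fun H => ¬ inv c H) f) :
    E c f = f := by
  classical
  conv_lhs => rw [eq_sum_support f]
  conv_rhs => rw [eq_sum_support f]
  rw [map_sum]
  refine Finset.sum_congr rfl (fun H hH => ?_)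
  rw [E_single, if_neg (hf H (Finsupp.mem_support_iff.mp hH))]

end SuppSec

section Cross

variable {V : Type} [Fintype V] {K : Type} [CommRing K]

/-- Graphs with no edge at the list `l` and no edge crossing `D`. -/
def QlD (l : List V) (D : Finset V) (H : GM V) : Prop :=
  ∀ i j, H.Adj i j → i ∉ l ∧ (i ∈ D ↔ j ∈ D)

lemma Supp_Zf (q : K) (G : SimpleGraph V) (D : Finset V)
    (hG : ∀ i j, G.Adj i j → (i ∈ D ↔ j ∈ D)) (l : List V) (hl : l.Nodup) :
    Supp (QlD l D) (Zf q G l) := by
  classical
  induction l with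
  | nil =>
    apply Supp_one
    intro i j h
    exact absurd h (by rw [GM.one_adj]; exact id)
  | cons c l ih =>
    have hnd := List.nodup_cons.mp hl
    have ih' := ih hnd.2
    rw [Zf_cons]
    apply Supp_T (QlD l D)
    · intro H hH _ i j hij
      rw [contr_adj] at hij
      obtain ⟨h1, h2, h3, h4⟩ := hij
      rcases h4 with h4 | ⟨h4, h5⟩
      · refine ⟨?_, (hH i j h4).2⟩
        rw [List.mem_cons, not_or]
        exact ⟨h1, (hH i j h4).1⟩
      · refine ⟨?_, ?_⟩
        · rw [List.mem_cons, not_or]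
          exact ⟨h1, (hH i c h4).1⟩
        · rw [(hH i c h4).2, (hH j c h5).2]
    · intro H hH hc i j hij
      refine ⟨?_, (hH i j hij).2⟩
      rw [List.mem_cons, not_or]
      refine ⟨?_, (hH i j hij).1⟩
      rintro rfl
      exact hc ⟨j, hij⟩
    · have hQmul : ∀ H H' : GM V, QlD l D H → QlD l D H' → QlD l D (H * H') := by
        intro H H' hH hH' i j hij
        rw [GM.mul_adj] at hij
        rcases hij with hij | hij
        · exact hH i j hij
        · exact hH' i j hij
      have hQ1 : QlD l D (1 : GM V) := by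
        intro i j h
        exact absurd h (by rw [GM.one_adj]; exact id)
      apply Supp_mul _ hQmul _ _ ih'
      apply Supp_prod _ hQ1 hQmul
      intro w hw
      rw [mem_outN] at hw
      apply Supp_sub _ _ _ (Supp_one _ hQ1)
      unfold dl
      apply Supp_single
      intro i j hij
      rw [edgeG_adj] at hij
      have hD := hG c w hw.2.2
      rcases hij.1 with ⟨rfl, rfl⟩ | ⟨rfl, rfl⟩
      · exact ⟨hnd.1, hD⟩
      · exact ⟨hw.2.1, hD.symm⟩

lemma E_Zf_eq (q : K) (G : SimpleGraph V) (D : Finset V)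
    (hG : ∀ i j, G.Adj i j → (i ∈ D ↔ j ∈ D)) (c : V) (l : List V) (hl : (c :: l).Nodup)
    (hcD : c ∈ D) (hD : ∀ x ∈ D, x = c ∨ x ∈ l) :
    E c (Zf q G l) = Zf q G l := by
  have hnd := List.nodup_cons.mp hl
  have h1 := Supp_Zf q G D hG l hnd.2
  apply E_eq_of_Supp
  intro H hH
  rintro ⟨j, hj⟩
  have h2 := h1 H hH
  have h3 := (h2 c j hj).2.mp hcD
  rcases hD j h3 with h4 | h4
  · exact GM.ne hj h4.symm
  · exact (h2 j c (GM.symm hj)).1 h4

end Cross

section Main

variable {V : Type} [Fintype V]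

/-- The statement proved by induction on the list `l`. -/
def Stmt (q : ℂ) (m : ℝ) (G0 : SimpleGraph V) (l : List V) : Prop :=
  ∀ G : SimpleGraph V, G ≤ G0 → IsUnit (Zf q G l) ∧
    ∀ a b, G0.Adj a b → ¬ G.Adj a b → b ∈ l →
      ∃ P, Zf q (G ⊔ SimpleGraph.edge a b) l = Zf q G l * (1 - P) ∧ N P ≤ m

lemma sup_edge_adj' (S : Finset (V × V)) (x y : V) :
    (S.sup (fun p => SimpleGraph.edge p.1 p.2)).Adj x y ↔
      ∃ p ∈ S, (SimpleGraph.edge p.1 p.2).Adj x y := by
  classical
  induction S using Finset.induction_on with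
  | empty => simp
  | insert a S ha ih =>
    rw [Finset.sup_insert, SimpleGraph.sup_adj, ih]
    simp

lemma edge_le_of_adj (G : SimpleGraph V) (a b : V) (h : G.Adj a b) : SimpleGraph.edge a b ≤ G := by
  intro x y hxy
  rw [SimpleGraph.edge_adj] at hxy
  rcases hxy.1 with ⟨rfl, rfl⟩ | ⟨rfl, rfl⟩
  · exact h
  · exact h.symm

lemma add_edges (q : ℂ) (m : ℝ) (hm : 0 ≤ m) (G0 : SimpleGraph V) (l : List V)
    (h : Stmt q m G0 l) (G : SimpleGraph V) (hG : G ≤ G0) (S : Finset (V × V))
    (hS : ∀ p ∈ S, G0.Adj p.1 p.2 ∧ (p.1 ∈ l ∨ p.2 ∈ l)) :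
    ∃ F, Zf q (G ⊔ S.sup (fun p => SimpleGraph.edge p.1 p.2)) l = Zf q G l * F ∧
      N F ≤ (1 + m) ^ S.card ∧ N (F - 1) ≤ (1 + m) ^ S.card - 1 := by
  classical
  induction S using Finset.induction_on with
  | empty =>
    refine ⟨1, ?_, ?_, ?_⟩
    · simp
    · simp [N_one]
    · simp [N_zero]
  | insert p S hp ih =>
    obtain ⟨F, hF1, hF2, hF3⟩ := ih (fun p hp => hS p (Finset.mem_insert_of_mem hp))
    set G1 := G ⊔ S.sup (fun p => SimpleGraph.edge p.1 p.2) with hG1
    have hG1le : G1 ≤ G0 := by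
      apply sup_le hG
      apply Finset.sup_le
      intro p' hp'
      exact edge_le_of_adj G0 _ _ (hS p' (Finset.mem_insert_of_mem hp')).1
    have hG2 : G ⊔ (insert p S).sup (fun p => SimpleGraph.edge p.1 p.2) =
        G1 ⊔ SimpleGraph.edge p.1 p.2 := by
      rw [Finset.sup_insert, hG1, sup_comm (SimpleGraph.edge p.1 p.2), sup_assoc]
    rw [hG2, Finset.card_insert_of_notMem hp]
    have hpow : (1 + m) ^ S.card ≤ (1 + m) ^ (S.card + 1) :=
      pow_le_pow_right₀ (by linarith) (Nat.le_succ _)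
    by_cases hadj : G1.Adj p.1 p.2
    · have : G1 ⊔ SimpleGraph.edge p.1 p.2 = G1 := sup_eq_left.mpr (edge_le_of_adj G1 _ _ hadj)
      rw [this]
      exact ⟨F, hF1, hF2.trans hpow, hF3.trans (by linarith)⟩
    · have hp' := hS p (Finset.mem_insert_self _ _)
      have hP : ∃ P, Zf q (G1 ⊔ SimpleGraph.edge p.1 p.2) l = Zf q G1 l * (1 - P) ∧ N P ≤ m := by
        rcases hp'.2 with h1 | h1
        · rw [SimpleGraph.edge_comm]
          exact (h G1 hG1le).2 p.2 p.1 hp'.1.symm (fun h => hadj h.symm) h1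
        · exact (h G1 hG1le).2 p.1 p.2 hp'.1 hadj h1
      obtain ⟨P, hP1, hP2⟩ := hP
      have hpos : (0:ℝ) ≤ (1 + m) ^ S.card := by positivity
      refine ⟨F * (1 - P), ?_, ?_, ?_⟩
      · rw [hP1, hF1, mul_assoc]
      · calc N (F * (1 - P)) ≤ N F * N (1 - P) := N_mul _ _
          _ ≤ (1 + m) ^ S.card * (1 + m) := by
              apply mul_le_mul hF2 _ (N_nonneg _) hpos
              exact (N_sub _ _).trans (by rw [N_one]; linarith)
          _ = (1 + m) ^ (S.card + 1) := by rw [pow_succ]
      · have e1 : F * (1 - P) - 1 = (F - 1) - F * P := by ring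
        rw [e1]
        calc N (F - 1 - F * P) ≤ N (F - 1) + N (F * P) := N_sub _ _
          _ ≤ ((1 + m) ^ S.card - 1) + (1 + m) ^ S.card * m := by
              apply add_le_add hF3
              exact (N_mul _ _).trans (mul_le_mul hF2 hP2 (N_nonneg _) hpos)
          _ = (1 + m) ^ (S.card + 1) - 1 := by ring

lemma N_dl (a b : V) : N (dl a b : MonoidAlgebra ℂ (GM V)) = 1 := by
  unfold dl
  rw [N_single]; simp

lemma N_prod_dl (c : V) (J : Finset V) :
    N (∏ w ∈ J, (1 - dl c w) : MonoidAlgebra ℂ (GM V)) ≤ 2 ^ J.card := by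
  classical
  induction J using Finset.induction_on with
  | empty => simp [N_one]
  | insert a J ha ih =>
    rw [Finset.prod_insert ha, Finset.card_insert_of_notMem ha]
    calc N ((1 - dl c a) * ∏ w ∈ J, (1 - dl c w) : MonoidAlgebra ℂ (GM V))
        ≤ N (1 - dl c a : MonoidAlgebra ℂ (GM V)) * N (∏ w ∈ J, (1 - dl c w) : MonoidAlgebra ℂ (GM V)) :=
          N_mul _ _
      _ ≤ 2 * 2 ^ J.card := by
          apply mul_le_mul _ ih (N_nonneg _) (by norm_num)
          exact (N_sub _ _).trans (by rw [N_one, N_dl]; norm_num)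
      _ = 2 ^ (J.card + 1) := by ring

lemma stmt_step (k : ℕ) (q : ℂ) (m : ℝ) (hq : 0 < ‖q‖) (hm : m = 2 ^ (k + 1) / ‖q‖) (hm1 : m ≤ 1)
    (hκ : (1 + m) ^ k - 1 + 2 ^ k / ‖q‖ ≤ 1 / 2)
    (G0 : SimpleGraph V) (c : V) (l : List V) (hl : (c :: l).Nodup) (D : Finset V) (hcD : c ∈ D)
    (hD : ∀ x ∈ D, x = c ∨ x ∈ l) (hcut : cutSize G0 D ≤ k) (h : Stmt q m G0 l) :
    Stmt q m G0 (c :: l) := by
  classical
  have hm0 : 0 ≤ m := by rw [hm]; positivity
  have hnd := List.nodup_cons.mp hl
  intro G hG
  -- the graph with the edges crossing `D` removed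
  let Gm : SimpleGraph V :=
    { Adj := fun i j => G.Adj i j ∧ (i ∈ D ↔ j ∈ D)
      symm := by
        constructor
        intro i j hij
        exact ⟨hij.1.symm, hij.2.symm⟩
      loopless := by
        constructor
        intro i hi
        exact hi.1.ne rfl }
  have hGm : ∀ i j, Gm.Adj i j ↔ G.Adj i j ∧ (i ∈ D ↔ j ∈ D) := fun i j => Iff.rfl
  have hGmle : Gm ≤ G := fun i j hij => hij.1
  let S : Finset (V × V) := univ.filter
    (fun p => p.1 ∈ D ∧ p.2 ∉ D ∧ G.Adj p.1 p.2 ∧ ¬ (p.1 = c ∧ p.2 ∉ l))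
  have hSmem : ∀ p, p ∈ S ↔ p.1 ∈ D ∧ p.2 ∉ D ∧ G.Adj p.1 p.2 ∧ ¬ (p.1 = c ∧ p.2 ∉ l) := by
    intro p; simp [S]
  have hS : ∀ p ∈ S, G0.Adj p.1 p.2 ∧ (p.1 ∈ l ∨ p.2 ∈ l) := by
    intro p hp
    rw [hSmem] at hp
    refine ⟨hG hp.2.2.1, ?_⟩
    by_cases h1 : p.1 ∈ l
    · exact Or.inl h1
    · right
      have h2 : p.1 = c := by
        rcases hD p.1 hp.1 with h3 | h3
        · exact h3
        · exact absurd h3 h1
      by_contra h3
      exact hp.2.2.2 ⟨h2, h3⟩
  obtain ⟨F, hF1, hF2, hF3⟩ := add_edges q m hm0 G0 l h Gm (hGmle.trans hG) S hS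
  have hZ : Zf q (Gm ⊔ S.sup (fun p => SimpleGraph.edge p.1 p.2)) l = Zf q G l := by
    apply Zf_congr
    intro x hx y
    rw [SimpleGraph.sup_adj, sup_edge_adj', hGm]
    constructor
    · rintro (h1 | ⟨p, hp, h1⟩)
      · exact h1.1
      · rw [hSmem] at hp
        exact edge_le_of_adj G _ _ hp.2.2.1 h1
    · intro h1
      by_cases h2 : x ∈ D ↔ y ∈ D
      · exact Or.inl ⟨h1, h2⟩
      · right
        by_cases h3 : x ∈ D
        · have h4 : y ∉ D := fun h5 => h2 ⟨fun _ => h5, fun _ => h3⟩
          refine ⟨(x, y), ?_, ?_⟩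
          · rw [hSmem]
            refine ⟨h3, h4, h1, ?_⟩
            rintro ⟨h5, _⟩
            simp only at h5
            rw [h5] at hx
            exact hnd.1 hx
          · rw [SimpleGraph.edge_adj]
            exact ⟨Or.inl ⟨rfl, rfl⟩, h1.ne⟩
        · have h4 : y ∈ D := by
            by_contra h5
            exact h2 ⟨fun h6 => absurd h6 h3, fun h6 => absurd h6 h5⟩
          refine ⟨(y, x), ?_, ?_⟩
          · rw [hSmem]
            refine ⟨h4, h3, h1.symm, ?_⟩
            rintro ⟨_, h5⟩
            exact h5 hx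
          · rw [SimpleGraph.edge_adj]
            exact ⟨Or.inr ⟨rfl, rfl⟩, h1.ne⟩
  rw [hZ] at hF1
  set J := outN G c l with hJ
  have hcard : J.card + S.card ≤ k := by
    refine le_trans ?_ hcut
    have h1 : J.card = (J.image (fun w => (c, w))).card := by
      rw [Finset.card_image_of_injective]
      intro a b hab
      simpa using hab
    rw [h1, ← Finset.card_union_of_disjoint]
    · unfold cutSize
      apply Finset.card_le_card
      intro p hp
      rw [Finset.mem_union, Finset.mem_image] at hp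
      simp only [mem_filter, mem_univ, true_and]
      rcases hp with ⟨w, hw, rfl⟩ | hp
      · rw [hJ, mem_outN] at hw
        refine ⟨hcD, ?_, hG hw.2.2⟩
        intro h2
        rcases hD w h2 with h3 | h3
        · exact hw.1 h3
        · exact hw.2.1 h3
      · rw [hSmem] at hp
        exact ⟨hp.1, hp.2.1, hG hp.2.2.1⟩
    · rw [Finset.disjoint_left]
      intro p hp hp'
      rw [Finset.mem_image] at hp
      obtain ⟨w, hw, rfl⟩ := hp
      rw [hJ, mem_outN] at hw
      rw [hSmem] at hp'
      exact hp'.2.2.2 ⟨rfl, hw.2.1⟩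
  set z := Zf q Gm l with hz
  have hzu : IsUnit z := (h Gm (hGmle.trans hG)).1
  have hEz : E c z = z := E_Zf_eq q Gm D (fun i j hij => hij.2) c l hl hcD hD
  set I : MonoidAlgebra ℂ (GM V) := ∏ w ∈ J, (1 - dl c w) with hI
  set f := F * I with hf
  have hNf : N f ≤ 2 ^ k := by
    calc N f ≤ N F * N I := N_mul _ _
      _ ≤ 2 ^ S.card * 2 ^ J.card := by
          apply mul_le_mul _ (N_prod_dl c J) (N_nonneg _) (by positivity)
          refine hF2.trans ?_
          exact pow_le_pow_left₀ (by linarith) (by linarith) _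
      _ = 2 ^ (J.card + S.card) := by rw [← pow_add, add_comm]
      _ ≤ 2 ^ k := pow_le_pow_right₀ (by norm_num) hcard
  have hEI : E c I = 1 := by
    rw [hI, map_prod]
    apply Finset.prod_eq_one
    intro w hw
    rw [hJ, mem_outN] at hw
    rw [map_sub, map_one, E_dl c w hw.1.symm, sub_zero]
  have hEf : E c f = E c F := by rw [hf, map_mul, hEI, mul_one]
  have hpowk : (1 + m) ^ S.card ≤ (1 + m) ^ k :=
    pow_le_pow_right₀ (by linarith) (by omega)
  have hEf1 : N (E c f - 1) ≤ (1 + m) ^ k - 1 := by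
    have e1 : E c f - 1 = E c (F - 1) := by rw [hEf, map_sub, map_one]
    rw [e1]
    calc N (E c (F - 1)) ≤ N (F - 1) := N_E _ _
      _ ≤ (1 + m) ^ S.card - 1 := hF3
      _ ≤ (1 + m) ^ k - 1 := by linarith
  have hTf : T q c f = q • E c f + T q c (f - E c f) := by
    conv_lhs => rw [show f = E c f + (f - E c f) by ring]
    rw [map_add, T_E]
  have hq0 : q ≠ 0 := norm_pos_iff.mp hq
  set κ := (E c f - 1) + q⁻¹ • T q c (f - E c f) with hκdef
  have hTκ : T q c f = q • (1 + κ) := by
    rw [hTf, hκdef]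
    rw [show (1 : MonoidAlgebra ℂ (GM V)) + ((E c f - 1) + q⁻¹ • T q c (f - E c f)) =
      E c f + q⁻¹ • T q c (f - E c f) by ring, smul_add, smul_smul, mul_inv_cancel₀ hq0, one_smul]
  have hNκ : N κ ≤ 1 / 2 := by
    calc N κ ≤ N (E c f - 1) + N (q⁻¹ • T q c (f - E c f)) := N_add _ _
      _ ≤ ((1 + m) ^ k - 1) + ‖q‖⁻¹ * 2 ^ k := by
          apply add_le_add hEf1
          rw [N_smul, norm_inv]
          apply mul_le_mul_of_nonneg_left _ (by positivity)
          refine (N_T q c f).trans ?_
          have h1 := N_split c f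
          have h2 := N_nonneg (E c f)
          linarith
      _ = (1 + m) ^ k - 1 + 2 ^ k / ‖q‖ := by rw [div_eq_inv_mul]
      _ ≤ 1 / 2 := hκ
  obtain ⟨g, hg1, hg2⟩ := exists_inv κ (by linarith)
  have hNg : N g ≤ 2 := by
    refine hg2.trans ?_
    rw [div_le_iff₀ (by linarith)]
    linarith
  set hh := q⁻¹ • g with hhdef
  have hinv : T q c f * hh = 1 := by
    rw [hTκ, hhdef, smul_mul_smul_comm, hg1, mul_inv_cancel₀ hq0, one_smul]
  have hNhh : N hh ≤ 2 / ‖q‖ := by
    rw [hhdef, N_smul, norm_inv, div_eq_inv_mul]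
    exact mul_le_mul_of_nonneg_left hNg (by positivity)
  have hEhh : E c hh = hh := by
    have h1 : T q c f * E c hh = 1 := by
      have h2 := congrArg (E c) hinv
      rwa [map_mul, E_T, map_one] at h2
    calc E c hh = (T q c f * hh) * E c hh := by rw [hinv, one_mul]
      _ = (T q c f * E c hh) * hh := by ring
      _ = hh := by rw [h1, one_mul]
  set ν := f * hh with hν
  have hTν : T q c ν = 1 := by
    rw [hν, mul_comm, ← hEhh, T_mul, hEhh, mul_comm, hinv]
  have hNν : N ν ≤ m := by
    calc N ν ≤ N f * N hh := N_mul _ _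
      _ ≤ 2 ^ k * (2 / ‖q‖) := mul_le_mul hNf hNhh (N_nonneg _) (by positivity)
      _ = m := by rw [hm, pow_succ]; ring
  have hZc : Zf q G (c :: l) = z * T q c f := by
    rw [Zf_cons, ← hJ, hF1, ← hI, mul_assoc, ← hf, ← hEz, T_mul, hEz]
  -- general form of the new factor
  have key : ∀ P' : MonoidAlgebra ℂ (GM V), z * T q c (f * (1 - P')) =
      Zf q G (c :: l) * (1 - T q c (ν * P')) := by
    intro P'
    have h1 : T q c (ν * P') = hh * T q c (f * P') := by
      rw [hν, show f * hh * P' = hh * (f * P') by ring]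
      conv_lhs => rw [← hEhh]
      rw [T_mul, hEhh]
    rw [hZc, h1, mul_sub, mul_one, mul_sub, mul_one, map_sub]
    rw [show z * T q c f * (hh * T q c (f * P')) = z * ((T q c f * hh) * T q c (f * P')) by ring,
      hinv, one_mul, mul_sub]
  have hNT0 : ∀ x : MonoidAlgebra ℂ (GM V), E c x = 0 → N (T q c x) ≤ N x := by
    intro x hx
    have := N_T q c x
    rwa [hx, sub_zero] at this
  refine ⟨?_, ?_⟩
  · rw [hZc]
    apply hzu.mul
    exact IsUnit.of_mul_eq_one hh hinv
  · intro a b hab hnab hb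
    set G' := G ⊔ SimpleGraph.edge a b with hG'
    by_cases hcase : a ∈ l ∨ b ∈ l
    · -- the new edge meets `l`
      have hP : ∃ P', Zf q G' l = Zf q G l * (1 - P') ∧ N P' ≤ m := by
        rcases hcase with h1 | h1
        · rw [hG', SimpleGraph.edge_comm]
          exact (h G hG).2 b a hab.symm (fun h => hnab h.symm) h1
        · exact (h G hG).2 a b hab hnab h1
      obtain ⟨P', hP1, hP2⟩ := hP
      have hout : outN G' c l = J := by
        ext w
        rw [hJ, mem_outN, mem_outN, hG', SimpleGraph.sup_adj, SimpleGraph.edge_adj]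
        constructor
        · rintro ⟨h1, h2, h3 | h3⟩
          · exact ⟨h1, h2, h3⟩
          · exfalso
            rcases h3.1 with ⟨rfl, rfl⟩ | ⟨rfl, rfl⟩
            · rcases hcase with h4 | h4
              · exact hnd.1 h4
              · exact h2 h4
            · rcases hcase with h4 | h4
              · exact h2 h4
              · exact hnd.1 h4
        · rintro ⟨h1, h2, h3⟩
          exact ⟨h1, h2, Or.inl h3⟩
      refine ⟨T q c (ν * P'), ?_, ?_⟩
      · rw [← key P', Zf_cons, hout, hP1, hF1, ← hI]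
        conv_lhs => rw [← hEz]
        rw [show E c z * F * (1 - P') * I = E c z * (f * (1 - P')) by rw [hf]; ring, T_mul, hEz]
      · have e1 : T q c (ν * P') = E c P' + T q c (ν * (P' - E c P')) := by
          conv_lhs => rw [show ν * P' = E c P' * ν + ν * (P' - E c P') by ring]
          rw [map_add, T_mul, hTν, mul_one]
        rw [e1]
        have e2 : E c (ν * (P' - E c P')) = 0 := by
          rw [map_mul, map_sub, E_idem, sub_self, mul_zero]
        calc N (E c P' + T q c (ν * (P' - E c P')))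
            ≤ N (E c P') + N (T q c (ν * (P' - E c P'))) := N_add _ _
          _ ≤ N (E c P') + N ν * N (P' - E c P') := by
              gcongr
              exact (hNT0 _ e2).trans (N_mul _ _)
          _ ≤ N (E c P') + 1 * N (P' - E c P') := by
              gcongr
              · exact N_nonneg _
              · linarith
          _ = N P' := by rw [one_mul, N_split]
          _ ≤ m := hP2
    · -- the new edge joins `c` to a vertex outside
      push Not at hcase
      have hbc : b = c := by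
        rcases List.mem_cons.mp hb with h1 | h1
        · exact h1
        · exact absurd h1 hcase.2
      subst hbc
      have hZ' : Zf q G' l = Zf q G l := by
        apply Zf_congr
        intro x hx y
        rw [hG', SimpleGraph.sup_adj, SimpleGraph.edge_adj]
        constructor
        · rintro (h1 | h1)
          · exact h1
          · exfalso
            rcases h1.1 with ⟨rfl, rfl⟩ | ⟨rfl, rfl⟩
            · exact hcase.1 hx
            · exact hcase.2 hx
        · exact Or.inl
      have hout : outN G' b l = insert a J := by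
        ext w
        rw [mem_insert, hJ, mem_outN, mem_outN, hG', SimpleGraph.sup_adj, SimpleGraph.edge_adj]
        constructor
        · rintro ⟨h1, h2, h3 | h3⟩
          · exact Or.inr ⟨h1, h2, h3⟩
          · rcases h3.1 with ⟨_, h4⟩ | ⟨_, h4⟩
            · exact absurd h4 h1
            · exact Or.inl h4
        · rintro (rfl | ⟨h1, h2, h3⟩)
          · exact ⟨hab.ne, hcase.1, Or.inr ⟨Or.inr ⟨rfl, rfl⟩, hab.ne.symm⟩⟩
          · exact ⟨h1, h2, Or.inl h3⟩
      have haJ : a ∉ J := by
        rw [hJ, mem_outN]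
        rintro ⟨_, _, h3⟩
        exact hnab h3.symm
      refine ⟨T q b (ν * dl b a), ?_, ?_⟩
      · rw [← key (dl b a), Zf_cons, hout, Finset.prod_insert haJ, hZ', hF1, ← hI]
        conv_lhs => rw [← hEz]
        rw [show E b z * F * ((1 - dl b a) * I) = E b z * (f * (1 - dl b a)) by rw [hf]; ring,
          T_mul, hEz]
      · have e2 : E b (ν * dl b a) = 0 := by
          rw [map_mul, E_dl b a hab.ne.symm, mul_zero]
        calc N (T q b (ν * dl b a)) ≤ N (ν * dl b a) := hNT0 _ e2
          _ ≤ N ν * N (dl b a : MonoidAlgebra ℂ (GM V)) := N_mul _ _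
          _ = N ν := by rw [N_dl, mul_one]
          _ ≤ m := hNν

end Main

end Pool.Agent.Helper40
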